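import Pool.Agent.Lib.MP_5ff43f_an.Quad

open MeasureTheory Set Filter
open scoped RealInnerProductSpace ENNReal NNReal Topology ContDiff

namespace Pool.Agent.Lib.MP_5ff43f_an

/-- basic bump on `(5/8,7/8)` -/
noncomputable def bb : ContDiffBump (3 / 4 : ℝ) := ⟨1 / 16, 1 / 8, by norm_num, by norm_num⟩

/-- the bump in the `k`-th cell -/
noncomputable def eta (k : ℕ) (s : ℝ) : ℝ := bb (s / (1 / 2 : ℝ) ^ k)

lemma eta_smooth (k : ℕ) : ContDiff ℝ ∞ (eta k) :=
  bb.contDiff.comp (contDiff_id.div_const _)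

lemma eta_nonneg (k : ℕ) (s : ℝ) : 0 ≤ eta k s := bb.nonneg
lemma eta_le_one (k : ℕ) (s : ℝ) : eta k s ≤ 1 := bb.le_one

lemma eta_supp {k : ℕ} {s : ℝ} (h : eta k s ≠ 0) :
    5 / 8 * (1 / 2 : ℝ) ^ k < s ∧ s < 7 / 8 * (1 / 2 : ℝ) ^ k := by
  have hq : (0 : ℝ) < (1 / 2) ^ k := by positivity
  have h1 : s / (1 / 2 : ℝ) ^ k ∈ Function.support bb := h
  rw [bb.support_eq, Real.ball_eq_Ioo] at h1
  have h2 : (3 / 4 : ℝ) - 1 / 8 < s / (1 / 2 : ℝ) ^ k := h1.1
  have h3 : s / (1 / 2 : ℝ) ^ k < (3 / 4 : ℝ) + 1 / 8 := h1.2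
  rw [lt_div_iff₀ hq] at h2
  rw [div_lt_iff₀ hq] at h3
  constructor <;> linarith

lemma eta_one {k : ℕ} {s : ℝ} (h1 : 11 / 16 * (1 / 2 : ℝ) ^ k ≤ s)
    (h2 : s ≤ 13 / 16 * (1 / 2 : ℝ) ^ k) : eta k s = 1 := by
  have hq : (0 : ℝ) < (1 / 2) ^ k := by positivity
  apply bb.one_of_mem_closedBall
  rw [Real.closedBall_eq_Icc]
  change s / (1 / 2 : ℝ) ^ k ∈ Icc ((3 / 4 : ℝ) - 1 / 16) (3 / 4 + 1 / 16)
  constructor
  · rw [le_div_iff₀ hq]; linarith
  · rw [div_le_iff₀ hq]; linarith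

lemma eta_int (k : ℕ) : (1 / 2 : ℝ) ^ k / 8 ≤ ∫ u in (0 : ℝ)..1, eta k u := by
  have hq : (0 : ℝ) < (1 / 2) ^ k := by positivity
  have hq1 : ((1 / 2 : ℝ)) ^ k ≤ 1 := pow_le_one₀ (by norm_num) (by norm_num)
  have hc := (eta_smooth k).continuous
  have h1 : ∫ u in (11 / 16 * (1 / 2 : ℝ) ^ k)..(13 / 16 * (1 / 2 : ℝ) ^ k), eta k u =
      (1 / 2 : ℝ) ^ k / 8 := by
    have : ∫ u in (11 / 16 * (1 / 2 : ℝ) ^ k)..(13 / 16 * (1 / 2 : ℝ) ^ k), eta k u =
        ∫ u in (11 / 16 * (1 / 2 : ℝ) ^ k)..(13 / 16 * (1 / 2 : ℝ) ^ k), (1 : ℝ) := by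
      apply intervalIntegral.integral_congr
      intro u hu
      rw [uIcc_of_le (by linarith)] at hu
      exact eta_one hu.1 hu.2
    rw [this]; simp; ring
  rw [← h1]
  apply intervalIntegral.integral_mono_interval (by linarith) (by linarith) (by linarith)
  · filter_upwards with u
    exact eta_nonneg k u
  · exact hc.intervalIntegrable _ _

/-- pointwise facts on the `k`-th cell -/
lemma cell_facts {k : ℕ} {x : E 2} (hs : eta k (x 0) ≠ 0) (hc : x ∈ closure Om)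
    (hq : (1 / 2 : ℝ) ^ (k + 1) ≤ x 1) :
    x 1 ≤ (1 / 2 : ℝ) ^ k ∧ (x ∉ Om → (1 / 2 : ℝ) ^ k / 24 ≤ x 1 - x 0) := by
  have hk : (0 : ℝ) < (1 / 2) ^ k := by positivity
  have hk1 : ((1 / 2 : ℝ)) ^ k ≤ 1 := pow_le_one₀ (by norm_num) (by norm_num)
  have hk2 : (1 / 2 : ℝ) ^ (k + 1) = (1 / 2) ^ k / 2 := by rw [pow_succ]; ring
  obtain ⟨h1, h2⟩ := eta_supp hs
  have h3 := closure_Om_sub hc
  have h4 : gg (x 1) ≤ x 0 := by
    rcases h3.1 with h5 | h5
    · exfalso; rw [hk2] at hq; linarith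
    · exact h5
  have h6 : x 1 ≤ (1 / 2 : ℝ) ^ k := by
    by_contra hlt
    push Not at hlt
    have h7 := gg_mono hlt.le
    rw [gg_of_mem hk1 (pow_mem_KK k)] at h7
    linarith
  refine ⟨h6, ?_⟩
  intro hx
  have h8 : x 0 ≤ gg (x 1) := by
    by_contra hlt
    push Not at hlt
    apply hx
    refine ⟨Or.inr hlt, ?_, ?_⟩
    · rw [abs_lt]; constructor <;> linarith
    · rw [hk2] at hq
      rw [abs_lt]; constructor <;> linarith
  have h9 : gg (x 1) = x 1 - dK (x 1) / 2 := by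
    unfold gg; rw [min_eq_left (by linarith)]
  have h10 := dK_lip (x 0) (x 1)
  have h11 := dK_ge k h1.le h2.le
  have h12 : 0 ≤ dK (x 1) := dK_nonneg _
  rw [abs_of_nonpos (by linarith)] at h10
  linarith

lemma Good.cell {σ : TensorMeasure 2} (h : Good σ) (k : ℕ) :
    (1 / 2 : ℝ) ^ k / 200 ≤
      ∫ x, Om.indicator (fun x => eta k (x 0)) x * σ.dens x 0 0 ∂σ.base := by
  have hk : (0 : ℝ) < (1 / 2) ^ k := by positivity
  have hk1 : ((1 / 2 : ℝ)) ^ k ≤ 1 := pow_le_one₀ (by norm_num) (by norm_num)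
  have hk2 : (1 / 2 : ℝ) ^ (k + 1) = (1 / 2) ^ k / 2 := by rw [pow_succ]; ring
  have c0 := coord_cont 0
  have c1 := coord_cont 1
  have hes := eta_smooth k
  have hec := hes.continuous
  have h00 : ∀ t ≤ 0, eta k t = 0 := by
    intro t ht
    by_contra hne
    have := (eta_supp hne).1
    linarith
  have h01 : ∀ t, 1 ≤ t → eta k t = 0 := by
    intro t ht
    by_contra hne
    have := (eta_supp hne).2
    linarith
  have m0 := h.marg0 hes h00 h01
  have m1 := h.mean0 hes h00 h01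
  have hint := eta_int k
  have i1 : Integrable (fun x => eta k (x 0) * (x 1 - x 0) * σ.dens x 0 0) σ.base :=
    integrable_cont_dens h.adm.supp ((hec.comp c0).mul (c1.sub c0)) 0 0
  have i2 : Integrable (fun x => eta k (x 0) * σ.dens x 0 0) σ.base :=
    integrable_cont_dens h.adm.supp (hec.comp c0) 0 0
  have i3 : Integrable (fun x => Om.indicator (fun x => eta k (x 0)) x * σ.dens x 0 0)
      σ.base := by
    apply integrable_mul_dens h.adm.supp (C := 1)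
    · exact ((hec.comp c0).measurable).indicator isOpen_Om.measurableSet
    · intro x _
      by_cases hx : x ∈ Om
      · rw [indicator_of_mem hx, abs_of_nonneg (eta_nonneg _ _)]; exact eta_le_one _ _
      · rw [indicator_of_notMem hx]; simp
  have i4 : Integrable (fun x => (1 / 2 : ℝ) ^ k / 24 * (eta k (x 0) * σ.dens x 0 0) -
      25 / 24 * (1 / 2 : ℝ) ^ k *
        (Om.indicator (fun x => eta k (x 0)) x * σ.dens x 0 0)) σ.base :=
    (i2.const_mul _).sub (i3.const_mul _)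
  have hmono : ∫ x, ((1 / 2 : ℝ) ^ k / 24 * (eta k (x 0) * σ.dens x 0 0) -
      25 / 24 * (1 / 2 : ℝ) ^ k *
        (Om.indicator (fun x => eta k (x 0)) x * σ.dens x 0 0)) ∂σ.base ≤
      ∫ x, eta k (x 0) * (x 1 - x 0) * σ.dens x 0 0 ∂σ.base := by
    apply integral_mono_ae i4 i1
    filter_upwards [h.al, h.adm.supp, h.quad (k + 1)] with x hx hxs hxq
    by_cases hα : σ.dens x 0 0 = 0
    · simp only [hα]; simp
    by_cases he : eta k (x 0) = 0
    · have hi : Om.indicator (fun x => eta k (x 0)) x = 0 := by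
        by_cases hxO : x ∈ Om
        · rw [indicator_of_mem hxO]; exact he
        · rw [indicator_of_notMem hxO]
      simp only [he, hi]; simp
    have hxc : x ∈ closure Om := by
      by_contra hn
      apply hα
      rw [hxs hn]; rfl
    have hsupp := eta_supp he
    have ht : (1 / 2 : ℝ) ^ (k + 1) ≤ x 1 := by
      by_contra hlt
      push Not at hlt
      exact hα (hxq (by rw [hk2]; linarith) hlt)
    obtain ⟨f1, f2⟩ := cell_facts he hxc ht
    have hpos : 0 ≤ eta k (x 0) * σ.dens x 0 0 := mul_nonneg (eta_nonneg _ _) hx.2.1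
    by_cases hxO : x ∈ Om
    · rw [indicator_of_mem hxO]
      have h5 : -(1 / 2 : ℝ) ^ k ≤ x 1 - x 0 := by
        rw [hk2] at ht; linarith
      have h6 : -(1 / 2 : ℝ) ^ k * (eta k (x 0) * σ.dens x 0 0) ≤
          (x 1 - x 0) * (eta k (x 0) * σ.dens x 0 0) := mul_le_mul_of_nonneg_right h5 hpos
      linarith
    · rw [indicator_of_notMem hxO]
      have h6 : (1 / 2 : ℝ) ^ k / 24 * (eta k (x 0) * σ.dens x 0 0) ≤
          (x 1 - x 0) * (eta k (x 0) * σ.dens x 0 0) := mul_le_mul_of_nonneg_right (f2 hxO) hpos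
      linarith
  rw [integral_sub (i2.const_mul _) (i3.const_mul _), integral_const_mul, integral_const_mul,
    m0, m1] at hmono
  set J := ∫ x, Om.indicator (fun x => eta k (x 0)) x * σ.dens x 0 0 ∂σ.base with hJ
  have h7 : (1 / 2 : ℝ) ^ k / 24 * ((1 / 2 : ℝ) ^ k / 8) ≤
      (1 / 2 : ℝ) ^ k / 24 * ∫ u in (0 : ℝ)..1, eta k u :=
    mul_le_mul_of_nonneg_left hint (by positivity)
  have h8 : (1 / 2 : ℝ) ^ k * ((1 / 2 : ℝ) ^ k / 200) ≤ (1 / 2 : ℝ) ^ k * J := by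
    nlinarith
  exact le_of_mul_le_mul_left h8 hk

end Pool.Agent.Lib.MP_5ff43f_an
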