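import Mathlib

open MeasureTheory Set
open scoped RealInnerProductSpace ENNReal NNReal Topology

namespace Pool.Agent.Lib.MP_5ff43f_an

/-- Euclidean space of dimension `d`. -/
abbrev E (d : ℕ) := EuclideanSpace ℝ (Fin d)

/-- The Hessian matrix of `φ` at `x`. -/
noncomputable def hess {d : ℕ} (φ : E d → ℝ) (x : E d) : Matrix (Fin d) (Fin d) ℝ :=
  Matrix.of fun i j =>
    fderiv ℝ (fun y => fderiv ℝ φ y (EuclideanSpace.single j 1)) x (EuclideanSpace.single i 1)

/-- A finite measure on `ℝ^d` with values in the real symmetric `d × d` matrices, given in the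
form `σ = dens • base` with a finite positive Borel measure `base` and a `base`-integrable
symmetric-matrix-valued density `dens`. -/
structure TensorMeasure (d : ℕ) where
  base : Measure (E d)
  finite : IsFiniteMeasure base
  dens : E d → Matrix (Fin d) (Fin d) ℝ
  symm : ∀ x, (dens x).IsHermitian
  meas : ∀ i j, Measurable fun x => dens x i j
  integrable : ∀ i j, Integrable (fun x => dens x i j) base

/-- The pairing `⟨σ, ψ⟩ = ∫ ψ : dσ`. -/
noncomputable def TensorMeasure.pair {d : ℕ} (σ : TensorMeasure d)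
    (ψ : E d → Matrix (Fin d) (Fin d) ℝ) : ℝ :=
  ∫ x, ∑ i, ∑ j, ψ x i j * σ.dens x i j ∂σ.base

/-- The nuclear norm (sum of the absolute values of the eigenvalues) of the density at `x`. -/
noncomputable def TensorMeasure.nuclear {d : ℕ} (σ : TensorMeasure d) (x : E d) : ℝ :=
  ∑ i, |(σ.symm x).eigenvalues i|

/-- The total nuclear norm `∫ ρ⁰(σ)`. -/
noncomputable def TensorMeasure.cost {d : ℕ} (σ : TensorMeasure d) : ℝ≥0∞ :=
  ∫⁻ x, ENNReal.ofReal (σ.nuclear x) ∂σ.base

/-- `σ` is concentrated on the set `S`, that is `|σ|(Sᶜ) = 0`. -/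
def TensorMeasure.ConcentratedOn {d : ℕ} (σ : TensorMeasure d) (S : Set (E d)) : Prop :=
  ∀ᵐ x ∂σ.base, x ∉ S → σ.dens x = 0

/-- The integral of `φ` against the signed measure `f`. -/
noncomputable def sint {d : ℕ} (f : SignedMeasure (E d)) (φ : E d → ℝ) : ℝ :=
  ∫ x, φ x ∂f.toJordanDecomposition.posPart - ∫ x, φ x ∂f.toJordanDecomposition.negPart

/-- `σ` is admissible for `f` in `Ω`: it lives on `closure Ω` and `div² σ = f` in the sense of
distributions on `ℝ^d`. -/
structure Admissible {d : ℕ} (Ω : Set (E d)) (f : SignedMeasure (E d)) (σ : TensorMeasure d) :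
    Prop where
  supp : σ.ConcentratedOn (closure Ω)
  eqn : ∀ φ : E d → ℝ, ContDiff ℝ (⊤ : ℕ∞) φ → HasCompactSupport φ → σ.pair (hess φ) = sint f φ

/-- `σ` solves the confined second-order Beckmann problem `I(f, Ω)`. -/
def IsSolution {d : ℕ} (Ω : Set (E d)) (f : SignedMeasure (E d)) (σ : TensorMeasure d) : Prop :=
  Admissible Ω f σ ∧ ∀ σ' : TensorMeasure d, Admissible Ω f σ' → σ.cost ≤ σ'.cost

/-- The unit vector pointing from `a` to `b` (zero if `a = b`). -/
noncomputable def dir {d : ℕ} (a b : E d) : E d := ‖b - a‖⁻¹ • (b - a)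

/-- The pairing of `ψ` with the tensor measure having density `ξ ↦ |ξ - z|` with respect to
`σ^{z,x} = e ⊗ e H¹⌊[z,x]`, `e = (x - z)/|x - z|`. -/
noncomputable def segPair {d : ℕ} (z x : E d) (ψ : E d → Matrix (Fin d) (Fin d) ℝ) : ℝ :=
  ∫ ξ in segment ℝ z x, ‖ξ - z‖ * ∑ i, ∑ j, ψ ξ i j * (dir z x i * dir z x j) ∂μH[1]

/-- The pairing `⟨σ^{x,y,z}, ψ⟩`. -/
noncomputable def threePair {d : ℕ} (x y z : E d) (ψ : E d → Matrix (Fin d) (Fin d) ℝ) : ℝ :=
  segPair z x ψ - segPair z y ψ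

/-- `σ = σ_π + σ_∂Ω` for some finite measure `π` on `closure Ω ^ 3` and some tensor measure
`σ_∂Ω` concentrated on the boundary of `Ω`. -/
def HasForm {d : ℕ} (Ω : Set (E d)) (σ : TensorMeasure d) : Prop :=
  ∃ π : Measure (E d × E d × E d), IsFiniteMeasure π ∧
    π (closure Ω ×ˢ closure Ω ×ˢ closure Ω)ᶜ = 0 ∧
    ∃ σb : TensorMeasure d, σb.ConcentratedOn (frontier Ω) ∧
      ∀ ψ : E d → Matrix (Fin d) (Fin d) ℝ, Continuous ψ → HasCompactSupport ψ →
        (∀ x, (ψ x).IsSymm) →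
        σ.pair ψ = (∫ p, threePair p.1 p.2.1 p.2.2 ψ ∂π) + σb.pair ψ

/-- `Ω` has Lipschitz boundary: near each boundary point `p` it is, in suitable orthonormal
coordinates, the strict epigraph of a Lipschitz function.  Here `ν` is the direction of the last
coordinate axis and `ψ` is a Lipschitz function of the remaining coordinates. -/
def HasLipschitzBoundary {d : ℕ} (Ω : Set (E d)) : Prop :=
  ∀ p ∈ frontier Ω, ∃ (ν : E d) (r : ℝ) (L : ℝ≥0) (ψ : E d → ℝ),
    ‖ν‖ = 1 ∧ 0 < r ∧ LipschitzWith L ψ ∧ (∀ (q : E d) (τ : ℝ), ψ (q + τ • ν) = ψ q) ∧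
    ∀ q ∈ Metric.ball p r, q ∈ Ω ↔ ψ q < ⟪ν, q⟫

end Pool.Agent.Lib.MP_5ff43f_an
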