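import Pool.Agent.Lib.MP_5ff43f_an.Lip

open MeasureTheory Set
open scoped RealInnerProductSpace ENNReal NNReal Topology

namespace Pool.Agent.Lib.MP_5ff43f_an

/-- The closed set of contact parameters: `(-∞,0] ∪ [1,∞) ∪ {2^{-k}}`. -/
def KK : Set ℝ := {t | t ≤ 0} ∪ {t | 1 ≤ t} ∪ range (fun k : ℕ => (1 / 2 : ℝ) ^ k)

/-- Distance to `KK`. -/
noncomputable def dK (t : ℝ) : ℝ := Metric.infDist t KK

/-- The profile of the obstacle. -/
noncomputable def gg (t : ℝ) : ℝ := min t 1 - dK t / 2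

lemma zero_mem_KK : (0 : ℝ) ∈ KK := Or.inl (Or.inl (le_refl (0 : ℝ)))

lemma one_le_mem_KK {t : ℝ} (h : 1 ≤ t) : t ∈ KK := Or.inl (Or.inr h)

lemma pow_mem_KK (k : ℕ) : ((1 / 2 : ℝ) ^ k) ∈ KK := Or.inr ⟨k, rfl⟩

lemma dK_nonneg (t : ℝ) : 0 ≤ dK t := Metric.infDist_nonneg

lemma dK_le {t y : ℝ} (hy : y ∈ KK) : dK t ≤ |t - y| := by
  have := Metric.infDist_le_dist_of_mem (x := t) hy
  rwa [Real.dist_eq] at this

lemma dK_zero {t : ℝ} (ht : t ∈ KK) : dK t = 0 := Metric.infDist_zero_of_mem ht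

lemma dK_lip (s t : ℝ) : dK s ≤ dK t + |s - t| := by
  have := Metric.infDist_le_infDist_add_dist (s := KK) (x := s) (y := t)
  rwa [Real.dist_eq] at this

lemma dK_cont : Continuous dK := Metric.continuous_infDist_pt _

lemma gg_cont : Continuous gg := by
  unfold gg
  exact (continuous_id.min continuous_const).sub (dK_cont.div_const 2)

lemma gg_le_one (t : ℝ) : gg t ≤ 1 := by
  unfold gg
  have := dK_nonneg t
  have := min_le_right t 1
  linarith

lemma gg_le_self (t : ℝ) : gg t ≤ t := by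
  unfold gg
  have := dK_nonneg t
  have := min_le_left t 1
  linarith

lemma gg_of_mem {t : ℝ} (h1 : t ≤ 1) (ht : t ∈ KK) : gg t = t := by
  unfold gg
  rw [dK_zero ht, min_eq_left h1]; simp

lemma gg_of_one_le {t : ℝ} (h1 : 1 ≤ t) : gg t = 1 := by
  unfold gg
  rw [dK_zero (one_le_mem_KK h1), min_eq_right h1]; simp

lemma gg_mono : Monotone gg := by
  intro s t hst
  rcases le_total t 1 with ht | ht
  · unfold gg
    rw [min_eq_left ht, min_eq_left (hst.trans ht)]
    have := dK_lip t s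
    rw [abs_of_nonneg (by linarith)] at this
    linarith
  · rw [gg_of_one_le ht]
    exact gg_le_one s

lemma half_le_gg {t : ℝ} (h0 : 0 ≤ t) (h1 : t ≤ 1) : t / 2 ≤ gg t := by
  unfold gg
  rw [min_eq_left h1]
  have := dK_le (t := t) zero_mem_KK
  rw [sub_zero, abs_of_nonneg h0] at this
  linarith

lemma dK_ge (k : ℕ) {s : ℝ} (h1 : 5 / 8 * (1 / 2 : ℝ) ^ k ≤ s) (h2 : s ≤ 7 / 8 * (1 / 2 : ℝ) ^ k) :
    (1 / 2 : ℝ) ^ k / 8 ≤ dK s := by
  have hne : KK.Nonempty := ⟨0, zero_mem_KK⟩
  apply (Metric.le_infDist hne).2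
  have hpk : (0 : ℝ) < (1 / 2 : ℝ) ^ k := by positivity
  have hpk1 : (1 / 2 : ℝ) ^ k ≤ 1 := pow_le_one₀ (by norm_num) (by norm_num)
  intro y hy
  rw [Real.dist_eq]
  rcases hy with (hy | hy) | ⟨j, rfl⟩
  · have hy' : y ≤ 0 := hy
    rw [abs_of_nonneg (by linarith)]
    linarith
  · have hy' : 1 ≤ y := hy
    rw [abs_of_nonpos (by linarith)]
    linarith
  · rcases le_or_gt j k with hjk | hjk
    · have : (1 / 2 : ℝ) ^ k ≤ (1 / 2 : ℝ) ^ j :=
        pow_le_pow_of_le_one (by norm_num) (by norm_num) hjk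
      simp only
      rw [abs_of_nonpos (by linarith)]
      linarith
    · have : (1 / 2 : ℝ) ^ j ≤ (1 / 2 : ℝ) ^ (k + 1) :=
        pow_le_pow_of_le_one (by norm_num) (by norm_num) hjk
      rw [pow_succ] at this
      simp only
      rw [abs_of_nonneg (by linarith)]
      linarith

/-- The domain. -/
def Om : Set (E 2) := {x | (x 1 < 0 ∨ gg (x 1) < x 0) ∧ |x 0| < 4 ∧ |x 1| < 4}

lemma coord_cont (i : Fin 2) : Continuous fun x : E 2 => x i := by fun_prop

lemma isOpen_Om : IsOpen Om := by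
  have h0 := coord_cont 0
  have h1 := coord_cont 1
  apply IsOpen.inter
  · exact (isOpen_lt h1 continuous_const).union (isOpen_lt (gg_cont.comp h1) h0)
  · exact (isOpen_lt h0.abs continuous_const).inter (isOpen_lt h1.abs continuous_const)

lemma norm_sq_E2 (x : E 2) : ‖x‖ ^ 2 = x 0 ^ 2 + x 1 ^ 2 := by
  rw [EuclideanSpace.norm_sq_eq]
  simp [Fin.sum_univ_two]

lemma abs_coord_le (x : E 2) (i : Fin 2) : |x i| ≤ ‖x‖ := by
  have h := norm_sq_E2 x
  apply abs_le_of_sq_le_sq _ (norm_nonneg _)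
  fin_cases i
  · simp only [Fin.zero_eta]; nlinarith [sq_nonneg (x 1)]
  · simp only [Fin.mk_one]; nlinarith [sq_nonneg (x 0)]

lemma isBounded_Om : Bornology.IsBounded Om := by
  apply (Metric.isBounded_ball (x := (0 : E 2)) (r := 6)).subset
  intro x hx
  rw [mem_ball_zero_iff]
  have h := norm_sq_E2 x
  have h0 := abs_lt.1 hx.2.1
  have h1 := abs_lt.1 hx.2.2
  have : ‖x‖ ^ 2 < 6 ^ 2 := by nlinarith
  exact lt_of_pow_lt_pow_left₀ 2 (by norm_num) this

/-- centre of the ball -/
noncomputable def cc : E 2 := !₂[2, -2]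

lemma ball_coords {x : E 2} (hx : x ∈ Metric.ball cc (1 / 2)) :
    3 / 2 < x 0 ∧ x 0 < 5 / 2 ∧ -(5 / 2) < x 1 ∧ x 1 < -(3 / 2) := by
  rw [Metric.mem_ball, dist_eq_norm] at hx
  have h0 := (abs_coord_le (x - cc) 0).trans_lt hx
  have h1 := (abs_coord_le (x - cc) 1).trans_lt hx
  have e0 : (x - cc) 0 = x 0 - 2 := by simp [cc]
  have e1 : (x - cc) 1 = x 1 + 2 := by simp [cc]
  rw [e0, abs_lt] at h0
  rw [e1, abs_lt] at h1
  refine ⟨by linarith, by linarith, by linarith, by linarith⟩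

lemma ball_sub_Om : Metric.ball cc (1 / 2) ⊆ Om := by
  intro x hx
  obtain ⟨a, b, c, d⟩ := ball_coords hx
  refine ⟨Or.inl (by linarith), ?_, ?_⟩ <;> rw [abs_lt] <;> constructor <;> linarith

lemma star_Om : ∀ q ∈ Om, ∀ c' ∈ Metric.ball cc (1 / 2), segment ℝ q c' ⊆ Om := by
  intro q hq c' hc'
  obtain ⟨a, b, c, d⟩ := ball_coords hc'
  rintro x ⟨u, v, hu, hv, huv, rfl⟩
  have e0 : (u • q + v • c') 0 = u * q 0 + v * c' 0 := by simp
  have e1 : (u • q + v • c') 1 = u * q 1 + v * c' 1 := by simp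
  have hq0 := abs_lt.1 hq.2.1
  have hq1 := abs_lt.1 hq.2.2
  refine ⟨?_, ?_, ?_⟩
  · rw [e0, e1]
    rcases hq.1 with h | h
    · left
      rcases hu.eq_or_lt with hu0 | hu0
      · have : v = 1 := by linarith
        rw [← hu0, this]; linarith
      · have : u * q 1 < 0 := by nlinarith
        have : v * c' 1 ≤ 0 := by nlinarith
        linarith
    · rcases lt_or_ge (u * q 1 + v * c' 1) 0 with h3 | h3
      · left; exact h3
      · right
        have hq1pos : 0 ≤ q 1 := by
          by_contra hneg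
          push Not at hneg
          have h4 : u * q 1 ≤ 0 := by nlinarith
          rcases hv.eq_or_lt with hv0 | hv0
          · have hu1 : u = 1 := by linarith
            rw [← hv0, hu1] at h3
            linarith
          · have h5 : v * c' 1 < 0 := by nlinarith
            linarith
        have hle : u * q 1 + v * c' 1 ≤ q 1 := by
          have : v * c' 1 ≤ 0 := by nlinarith
          have : u * q 1 ≤ q 1 := by nlinarith
          linarith
        have hg := gg_mono hle
        rcases le_total (q 0) (c' 0) with h6 | h6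
        · have : q 0 ≤ u * q 0 + v * c' 0 := by
            have hu' : u = 1 - v := by linarith
            rw [hu']; nlinarith
          linarith
        · have h7 := gg_le_one (u * q 1 + v * c' 1)
          have : c' 0 ≤ u * q 0 + v * c' 0 := by
            have hv' : v = 1 - u := by linarith
            rw [hv']; nlinarith
          linarith
  · rw [e0, abs_lt]
    have hu' : u = 1 - v := by linarith
    have hv1 : v ≤ 1 := by linarith
    rw [hu']
    constructor
    · rcases hv.eq_or_lt with hv0 | hv0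
      · rw [← hv0]; linarith
      · nlinarith
    · rcases hv.eq_or_lt with hv0 | hv0
      · rw [← hv0]; linarith
      · nlinarith
  · rw [e1, abs_lt]
    have hu' : u = 1 - v := by linarith
    have hv1 : v ≤ 1 := by linarith
    rw [hu']
    constructor
    · rcases hv.eq_or_lt with hv0 | hv0
      · rw [← hv0]; linarith
      · nlinarith
    · rcases hv.eq_or_lt with hv0 | hv0
      · rw [← hv0]; linarith
      · nlinarith

lemma cc_mem : cc ∈ Om := ball_sub_Om (Metric.mem_ball_self (by norm_num))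

lemma lipschitz_Om : HasLipschitzBoundary Om :=
  hasLipschitzBoundary_of_star isOpen_Om (by norm_num : (0 : ℝ) < 1 / 2) ball_sub_Om star_Om

lemma isConnected_Om : IsConnected Om := by
  have hs : StarConvex ℝ cc Om := by
    rw [starConvex_iff_segment_subset]
    intro y hy
    rw [segment_symm]
    exact star_Om y hy cc (Metric.mem_ball_self (by norm_num))
  exact (hs.isPathConnected cc_mem).isConnected

/-- A closed set containing the closure of the domain. -/
lemma closure_Om_sub {x : E 2} (hx : x ∈ closure Om) :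
    (x 1 ≤ 0 ∨ gg (x 1) ≤ x 0) ∧ |x 0| ≤ 4 ∧ |x 1| ≤ 4 := by
  have h0 := coord_cont 0
  have h1 := coord_cont 1
  have hcl : IsClosed {x : E 2 | (x 1 ≤ 0 ∨ gg (x 1) ≤ x 0) ∧ |x 0| ≤ 4 ∧ |x 1| ≤ 4} := by
    apply IsClosed.inter
    · exact (isClosed_le h1 continuous_const).union (isClosed_le (gg_cont.comp h1) h0)
    · exact (isClosed_le h0.abs continuous_const).inter (isClosed_le h1.abs continuous_const)
  have hsub : Om ⊆ {x : E 2 | (x 1 ≤ 0 ∨ gg (x 1) ≤ x 0) ∧ |x 0| ≤ 4 ∧ |x 1| ≤ 4} := by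
    intro y hy
    exact ⟨hy.1.imp le_of_lt le_of_lt, hy.2.1.le, hy.2.2.le⟩
  exact closure_minimal hsub hcl hx

end Pool.Agent.Lib.MP_5ff43f_an
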