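import Pool.Agent.Lib.MP_5ff43f_an.Fld

open MeasureTheory Set Filter
open scoped RealInnerProductSpace ENNReal NNReal Topology ContDiff

namespace Pool.Agent.Lib.MP_5ff43f_an

open Real (smoothTransition)

lemma eta_disjoint {j k : ℕ} {s : ℝ} (hj : eta j s ≠ 0) (hk : eta k s ≠ 0) : j = k := by
  obtain ⟨a1, a2⟩ := eta_supp hj
  obtain ⟨b1, b2⟩ := eta_supp hk
  rcases lt_trichotomy j k with h | h | h
  · exfalso
    have : (1 / 2 : ℝ) ^ k ≤ (1 / 2 : ℝ) ^ (j + 1) :=
      pow_le_pow_of_le_one (by norm_num) (by norm_num) h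
    rw [pow_succ] at this
    have : (0 : ℝ) < (1 / 2) ^ j := by positivity
    linarith
  · exact h
  · exfalso
    have : (1 / 2 : ℝ) ^ j ≤ (1 / 2 : ℝ) ^ (k + 1) :=
      pow_le_pow_of_le_one (by norm_num) (by norm_num) h
    rw [pow_succ] at this
    have : (0 : ℝ) < (1 / 2) ^ k := by positivity
    linarith

theorem Good.not_form {σ : TensorMeasure 2} (h : Good σ) : ¬ HasForm Om σ := by
  intro hf
  obtain ⟨C, hC⟩ := form_bound h hf
  have c0 := coord_cont 0
  have c1 := coord_cont 1
  choose p hp using fun n : ℕ => exists_approx (Nat.succ_pos n)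
  -- the boundary cutoff
  set θ : ℕ → E 2 → ℝ := fun n x =>
    smoothTransition (((n + 1 : ℕ) : ℝ) * (x 0 - (p n).eval (x 1))) with hθ
  have hθc : ∀ n, Continuous (θ n) := by
    intro n
    have : Continuous fun t : ℝ => (p n).eval t := (p n).continuous
    exact Real.smoothTransition.continuous.comp
      (continuous_const.mul (c0.sub (this.comp c1)))
  have hθ0 : ∀ n x, 0 ≤ θ n x := fun n x => Real.smoothTransition.nonneg _
  have hθ1 : ∀ n x, θ n x ≤ 1 := fun n x => Real.smoothTransition.le_one _
  -- cell facts, a.e.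
  have hcell : ∀ k : ℕ, ∀ᵐ x ∂σ.base, σ.dens x 0 0 ≠ 0 → eta k (x 0) ≠ 0 →
      x ∈ closure Om ∧ (1 / 2 : ℝ) ^ (k + 1) ≤ x 1 ∧ x 1 ≤ (1 / 2 : ℝ) ^ k := by
    intro k
    filter_upwards [h.adm.supp, h.quad (k + 1)] with x hxs hxq hα he
    have hk : (0 : ℝ) < (1 / 2) ^ k := by positivity
    have hk2 : (1 / 2 : ℝ) ^ (k + 1) = (1 / 2) ^ k / 2 := by rw [pow_succ]; ring
    have hxc : x ∈ closure Om := by
      by_contra hn
      apply hα
      rw [hxs hn]; rfl
    have hsupp := eta_supp he
    have ht : (1 / 2 : ℝ) ^ (k + 1) ≤ x 1 := by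
      by_contra hlt
      push Not at hlt
      exact hα (hxq (by rw [hk2]; linarith) hlt)
    exact ⟨hxc, ht, (cell_facts he hxc ht).1⟩
  have hlim : ∀ k : ℕ, Tendsto (fun n => ∫ x, eta k (x 0) * θ n x * σ.dens x 0 0 ∂σ.base) atTop
      (𝓝 (∫ x, Om.indicator (fun x => eta k (x 0)) x * σ.dens x 0 0 ∂σ.base)) := by
    intro k
    have hec := (eta_smooth k).continuous
    apply tendsto_integral_of_dominated_convergence (fun x => |σ.dens x 0 0|)
    · intro n
      have : Integrable (fun x => eta k (x 0) * θ n x * σ.dens x 0 0) σ.base :=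
        integrable_cont_dens h.adm.supp ((hec.comp c0).mul (hθc n)) 0 0
      exact this.aestronglyMeasurable
    · exact (σ.integrable 0 0).abs
    · intro n
      filter_upwards with x
      rw [norm_mul, norm_mul, Real.norm_eq_abs, Real.norm_eq_abs, Real.norm_eq_abs,
        abs_of_nonneg (eta_nonneg _ _), abs_of_nonneg (hθ0 _ _)]
      have a := eta_le_one k (x 0)
      have a' := eta_nonneg k (x 0)
      have b := hθ1 n x
      have b' := hθ0 n x
      have : eta k (x 0) * θ n x ≤ 1 := mul_le_one₀ a b' b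
      calc eta k (x 0) * θ n x * |σ.dens x 0 0| ≤ 1 * |σ.dens x 0 0| :=
            mul_le_mul_of_nonneg_right this (abs_nonneg _)
        _ = _ := one_mul _
    · filter_upwards [hcell k] with x hx
      by_cases hα : σ.dens x 0 0 = 0
      · simp only [hα, mul_zero]; exact tendsto_const_nhds
      by_cases he : eta k (x 0) = 0
      · have hi : Om.indicator (fun x => eta k (x 0)) x = 0 := by
          by_cases hxO : x ∈ Om
          · rw [indicator_of_mem hxO]; exact he
          · rw [indicator_of_notMem hxO]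
        simp only [he, hi, zero_mul]; exact tendsto_const_nhds
      obtain ⟨hxc, ht1, ht2⟩ := hx hα he
      have hk : (0 : ℝ) < (1 / 2) ^ k := by positivity
      have hk1 : ((1 / 2 : ℝ)) ^ k ≤ 1 := pow_le_one₀ (by norm_num) (by norm_num)
      have hk2 : (1 / 2 : ℝ) ^ (k + 1) = (1 / 2) ^ k / 2 := by rw [pow_succ]; ring
      rw [hk2] at ht1
      have htI : x 1 ∈ Icc (0 : ℝ) 1 := ⟨by linarith, by linarith⟩
      have hsupp := eta_supp he
      by_cases hxO : x ∈ Om
      · rw [indicator_of_mem hxO]
        have hgs : gg (x 1) < x 0 := by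
          rcases hxO.1 with h5 | h5
          · linarith
          · exact h5
        have hev : ∀ᶠ n : ℕ in atTop, eta k (x 0) * θ n x * σ.dens x 0 0 =
            eta k (x 0) * σ.dens x 0 0 := by
          obtain ⟨N, hN⟩ := exists_nat_gt (4 / (x 0 - gg (x 1)))
          filter_upwards [eventually_ge_atTop N] with n hn
          have hd : 0 < x 0 - gg (x 1) := by linarith
          have hnN : (N : ℝ) ≤ n := by exact_mod_cast hn
          have h6 : 4 < (n : ℝ) * (x 0 - gg (x 1)) := by
            rw [div_lt_iff₀ hd] at hN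
            nlinarith
          have h7 := (hp n (x 1) htI).2
          have hn1 : (0 : ℝ) < ((n + 1 : ℕ) : ℝ) := by positivity
          have h8 : ((n + 1 : ℕ) : ℝ) * (3 / ((n + 1 : ℕ) : ℝ)) = 3 := by field_simp
          have h9 : (1 : ℝ) ≤ ((n + 1 : ℕ) : ℝ) * (x 0 - (p n).eval (x 1)) := by
            have h10 : ((n + 1 : ℕ) : ℝ) * (x 0 - (gg (x 1) + 3 / ((n + 1 : ℕ) : ℝ))) ≤
                ((n + 1 : ℕ) : ℝ) * (x 0 - (p n).eval (x 1)) :=
              mul_le_mul_of_nonneg_left (by linarith) hn1.le
            have h11 : ((n + 1 : ℕ) : ℝ) * (x 0 - (gg (x 1) + 3 / ((n + 1 : ℕ) : ℝ))) =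
                ((n + 1 : ℕ) : ℝ) * (x 0 - gg (x 1)) - 3 := by
              have h14 : ((n + 1 : ℕ) : ℝ) * (x 0 - (gg (x 1) + 3 / ((n + 1 : ℕ) : ℝ))) =
                  ((n + 1 : ℕ) : ℝ) * (x 0 - gg (x 1)) -
                    ((n + 1 : ℕ) : ℝ) * (3 / ((n + 1 : ℕ) : ℝ)) := by ring
              rw [h14, h8]
            have h12 : ((n + 1 : ℕ) : ℝ) = (n : ℝ) + 1 := by push_cast; ring
            rw [h11] at h10
            rw [h12] at h10 ⊢
            nlinarith
          have h13 : θ n x = 1 := Real.smoothTransition.one_of_one_le h9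
          rw [h13, mul_one]
        exact tendsto_const_nhds.congr' (hev.mono fun n hn => hn.symm)
      · rw [indicator_of_notMem hxO]
        have hsg : x 0 ≤ gg (x 1) := by
          by_contra hlt
          push Not at hlt
          apply hxO
          refine ⟨Or.inr hlt, ?_, ?_⟩
          · rw [abs_lt]; constructor <;> linarith
          · rw [abs_lt]; constructor <;> linarith
        have hz : ∀ n : ℕ, eta k (x 0) * θ n x * σ.dens x 0 0 = 0 := by
          intro n
          have h7 := (hp n (x 1) htI).1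
          have hn1 : (0 : ℝ) < ((n + 1 : ℕ) : ℝ) := by positivity
          have h8 : (0 : ℝ) < 1 / ((n + 1 : ℕ) : ℝ) := by positivity
          have h13 : θ n x = 0 := by
            apply Real.smoothTransition.zero_of_nonpos
            apply mul_nonpos_of_nonneg_of_nonpos hn1.le
            have : ((n.succ : ℕ) : ℝ) = ((n + 1 : ℕ) : ℝ) := rfl
            linarith
          rw [h13]; ring
        simp only [hz, zero_mul]; exact tendsto_const_nhds
  -- the main inequality for each K
  have hK : ∀ K : ℕ, (K : ℝ) / 800 ≤ C := by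
    intro K
    set δ : ℝ := (1 / 2 : ℝ) ^ (K + 2) with hδdef
    have hδ : 0 < δ := by positivity
    have hn : ∀ n : ℕ, ∑ k ∈ Finset.Icc 1 K,
        (2 : ℝ) ^ k / 4 * ∫ x, eta k (x 0) * θ n x * σ.dens x 0 0 ∂σ.base ≤ C := by
      intro n
      have hX := hC (XX δ (n + 1) (p n)) ((XX_smooth hδ _ _).of_le (by simp))
        (XX_tsupp hδ (Nat.succ_pos n) (hp n)).2 (XX_tsupp hδ (Nat.succ_pos n) (hp n)).1
        (XX_bound δ _ _)
      refine le_trans ?_ hX
      have hint : ∀ k, Integrable (fun x => eta k (x 0) * θ n x * σ.dens x 0 0) σ.base :=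
        fun k => integrable_cont_dens h.adm.supp
          (((eta_smooth k).continuous.comp c0).mul (hθc n)) 0 0
      have e1 : ∑ k ∈ Finset.Icc 1 K,
          (2 : ℝ) ^ k / 4 * ∫ x, eta k (x 0) * θ n x * σ.dens x 0 0 ∂σ.base =
          ∫ x, ∑ k ∈ Finset.Icc 1 K,
            (2 : ℝ) ^ k / 4 * (eta k (x 0) * θ n x * σ.dens x 0 0) ∂σ.base := by
        rw [integral_finsetSum]
        · apply Finset.sum_congr rfl
          intro k _
          rw [integral_const_mul]
        · intro k _
          exact (hint k).const_mul _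
      rw [e1]
      have hXc : Continuous fun x => fderiv ℝ (XX δ (n + 1) (p n)) x
          (EuclideanSpace.single 0 1) :=
        ((XX_smooth hδ _ _).continuous_fderiv (by simp)).clm_apply continuous_const
      apply integral_mono_ae
      · exact integrable_finsetSum _ fun k _ => (hint k).const_mul _
      · exact integrable_cont_dens h.adm.supp hXc 0 0
      · have hcellall : ∀ᵐ x ∂σ.base, ∀ k : ℕ, σ.dens x 0 0 ≠ 0 → eta k (x 0) ≠ 0 →
          x ∈ closure Om ∧ (1 / 2 : ℝ) ^ (k + 1) ≤ x 1 ∧ x 1 ≤ (1 / 2 : ℝ) ^ k :=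
          ae_all_iff.2 hcell
        filter_upwards [h.al, h.adm.supp, hcellall, h.quad 0] with x hx hxs hxc hq0
        by_cases hα : σ.dens x 0 0 = 0
        · simp only [hα, mul_zero, Finset.sum_const_zero]; exact le_refl _
        have hαpos : 0 ≤ σ.dens x 0 0 := hx.2.1
        have hclx : x ∈ closure Om := by
          by_contra hn
          apply hα
          rw [hxs hn]; rfl
        have hder := XX_deriv hδ (n := n + 1) (p := p n) (x := x) (by
          intro ht0 ht1
          constructor
          · have h2 := closure_Om_sub hclx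
            have h3 := half_le_gg ht0.le ht1.le
            rcases h2.1 with h4 | h4
            · linarith
            · linarith
          · by_contra hlt
            push Not at hlt
            simp only [pow_zero] at hq0
            exact hα (hq0 hlt ht1))
        have hder2 : chi4 δ (x 1) * θ n x * (x 1 / (x 0 ^ 2 + x 1 ^ 2)) * σ.dens x 0 0 ≤
            fderiv ℝ (XX δ (n + 1) (p n)) x (EuclideanSpace.single 0 1) * σ.dens x 0 0 :=
          mul_le_mul_of_nonneg_right hder hαpos
        refine le_trans ?_ hder2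
        -- sum bound
        by_cases hex : ∃ k ∈ Finset.Icc 1 K, eta k (x 0) ≠ 0
        · obtain ⟨k, hkI, hke⟩ := hex
          rw [Finset.sum_eq_single k]
          · obtain ⟨_, ht1, ht2⟩ := hxc k hα hke
            obtain ⟨hs1, hs2⟩ := eta_supp hke
            have hk : (0 : ℝ) < (1 / 2) ^ k := by positivity
            have hk2 : (1 / 2 : ℝ) ^ (k + 1) = (1 / 2) ^ k / 2 := by rw [pow_succ]; ring
            rw [Finset.mem_Icc] at hkI
            have hkhalf : (1 / 2 : ℝ) ^ k ≤ 1 / 2 := by
              have : (1 / 2 : ℝ) ^ k ≤ (1 / 2 : ℝ) ^ 1 :=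
                pow_le_pow_of_le_one (by norm_num) (by norm_num) hkI.1
              simpa using this
            have hdk : 2 * δ ≤ (1 / 2 : ℝ) ^ (k + 1) := by
              have h5 : (1 / 2 : ℝ) ^ (K + 1) ≤ (1 / 2 : ℝ) ^ (k + 1) :=
                pow_le_pow_of_le_one (by norm_num) (by norm_num) (by omega)
              have h6 : 2 * δ = (1 / 2 : ℝ) ^ (K + 1) := by
                rw [hδdef, pow_succ (1 / 2 : ℝ) (K + 1)]; ring
              rw [h6]; exact h5
            have hchi : chi4 δ (x 1) = 1 := chi4_one hδ (hdk.trans ht1) (ht2.trans hkhalf)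
            rw [hchi, one_mul]
            rw [hk2] at ht1
            have hx1 : 0 < x 1 := by linarith
            have hx0 : 0 < x 0 := by linarith
            have hw : (2 : ℝ) ^ k / 4 ≤ x 1 / (x 0 ^ 2 + x 1 ^ 2) := by
              rw [le_div_iff₀ (by positivity)]
              have h7 : (2 : ℝ) ^ k * (1 / 2 : ℝ) ^ k = 1 := by
                rw [← mul_pow]; norm_num
              set Q := (1 / 2 : ℝ) ^ k with hQ
              have h2k : (0 : ℝ) < 2 ^ k := by positivity
              have h8 : x 0 ^ 2 + x 1 ^ 2 ≤ 2 * Q ^ 2 := by nlinarith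
              have h9 : (2 : ℝ) ^ k / 4 * (x 0 ^ 2 + x 1 ^ 2) ≤ (2 : ℝ) ^ k / 4 * (2 * Q ^ 2) :=
                mul_le_mul_of_nonneg_left h8 (by positivity)
              have h10 : (2 : ℝ) ^ k / 4 * (2 * Q ^ 2) = Q / 2 := by
                have : (2 : ℝ) ^ k / 4 * (2 * Q ^ 2) = ((2 : ℝ) ^ k * Q) * Q / 2 := by ring
                rw [this, h7]; ring
              linarith
            have he1 := eta_le_one k (x 0)
            have he0 := eta_nonneg k (x 0)
            have hθn := hθ0 n x
            have hw0 : 0 ≤ x 1 / (x 0 ^ 2 + x 1 ^ 2) := by positivity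
            have hfin : (2 : ℝ) ^ k / 4 * (eta k (x 0) * θ n x) ≤
                θ n x * (x 1 / (x 0 ^ 2 + x 1 ^ 2)) := by
              have h11 : (2 : ℝ) ^ k / 4 * eta k (x 0) ≤ x 1 / (x 0 ^ 2 + x 1 ^ 2) * 1 :=
                mul_le_mul hw he1 he0 hw0
              nlinarith
            have := mul_le_mul_of_nonneg_right hfin hαpos
            linarith
          · intro j _ hjk
            have : eta j (x 0) = 0 := by
              by_contra hne
              exact hjk (eta_disjoint hne hke)
            simp only [this, zero_mul, mul_zero]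
          · intro hn
            exact absurd hkI hn
        · push Not at hex
          rw [Finset.sum_eq_zero]
          · by_cases hc : chi4 δ (x 1) = 0
            · simp only [hc, zero_mul]; exact le_refl _
            · have ht : δ < x 1 := by
                by_contra hcon
                push Not at hcon
                exact hc (chi4_zero hδ (Or.inl hcon))
              have hx1 : 0 < x 1 := hδ.trans ht
              have a1 := chi4_nonneg δ (x 1)
              have a2 := hθ0 n x
              have a3 : 0 ≤ x 1 / (x 0 ^ 2 + x 1 ^ 2) := by positivity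
              exact mul_nonneg (mul_nonneg (mul_nonneg a1 a2) a3) hαpos
          · intro j hj
            simp only [hex j hj, zero_mul, mul_zero]
    -- pass to the limit
    have hlimsum : Tendsto (fun n => ∑ k ∈ Finset.Icc 1 K,
        (2 : ℝ) ^ k / 4 * ∫ x, eta k (x 0) * θ n x * σ.dens x 0 0 ∂σ.base) atTop
        (𝓝 (∑ k ∈ Finset.Icc 1 K, (2 : ℝ) ^ k / 4 *
          ∫ x, Om.indicator (fun x => eta k (x 0)) x * σ.dens x 0 0 ∂σ.base)) :=
      tendsto_finsetSum _ fun k _ => (hlim k).const_mul _
    have hle := le_of_tendsto' hlimsum hn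
    refine le_trans ?_ hle
    have hterm : ∀ k ∈ Finset.Icc 1 K, (1 / 800 : ℝ) ≤ (2 : ℝ) ^ k / 4 *
          ∫ x, Om.indicator (fun x => eta k (x 0)) x * σ.dens x 0 0 ∂σ.base := by
      intro k _
      have h1 := h.cell k
      have h7 : (2 : ℝ) ^ k * (1 / 2 : ℝ) ^ k = 1 := by
        rw [← mul_pow]; norm_num
      have h2 : (2 : ℝ) ^ k / 4 * ((1 / 2 : ℝ) ^ k / 200) = 1 / 800 := by
        have : (2 : ℝ) ^ k / 4 * ((1 / 2 : ℝ) ^ k / 200) = ((2 : ℝ) ^ k * (1 / 2 : ℝ) ^ k) / 800 := by
          ring
        rw [this, h7]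
      rw [← h2]
      exact mul_le_mul_of_nonneg_left h1 (by positivity)
    have hsum := Finset.card_nsmul_le_sum (Finset.Icc 1 K) _ (1 / 800 : ℝ) hterm
    rw [Nat.card_Icc, nsmul_eq_mul] at hsum
    have : ((K + 1 - 1 : ℕ) : ℝ) = K := by simp
    rw [this] at hsum
    linarith
  obtain ⟨K, hKC⟩ := exists_nat_gt (800 * C)
  have := hK K
  linarith

end Pool.Agent.Lib.MP_5ff43f_an
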