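import Pool.Agent.Lib.MP_5ff43f_an.Seg

open MeasureTheory Set Filter
open scoped RealInnerProductSpace ENNReal NNReal Topology ContDiff

namespace Pool.Agent.Lib.MP_5ff43f_an

open Real (smoothTransition)

/-- cutoff in `t` -/
noncomputable def chi4 (δ t : ℝ) : ℝ := smoothTransition ((t - δ) / δ) * smoothTransition (4 * (3 / 4 - t))

lemma chi4_smooth (δ : ℝ) : ContDiff ℝ ∞ (chi4 δ) := by
  unfold chi4
  exact (Real.smoothTransition.contDiff.comp (by fun_prop)).mul
    (Real.smoothTransition.contDiff.comp (by fun_prop))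

lemma chi4_nonneg (δ t : ℝ) : 0 ≤ chi4 δ t :=
  mul_nonneg (Real.smoothTransition.nonneg _) (Real.smoothTransition.nonneg _)

lemma chi4_le_one (δ t : ℝ) : chi4 δ t ≤ 1 :=
  mul_le_one₀ (Real.smoothTransition.le_one _) (Real.smoothTransition.nonneg _)
    (Real.smoothTransition.le_one _)

lemma chi4_zero {δ t : ℝ} (hδ : 0 < δ) (h : t ≤ δ ∨ 3 / 4 ≤ t) : chi4 δ t = 0 := by
  unfold chi4
  rcases h with h | h
  · rw [Real.smoothTransition.zero_of_nonpos (x := (t - δ) / δ)
      (div_nonpos_of_nonpos_of_nonneg (by linarith) hδ.le), zero_mul]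
  · rw [Real.smoothTransition.zero_of_nonpos (x := 4 * (3 / 4 - t)) (by linarith), mul_zero]

lemma chi4_one {δ t : ℝ} (hδ : 0 < δ) (h1 : 2 * δ ≤ t) (h2 : t ≤ 1 / 2) : chi4 δ t = 1 := by
  unfold chi4
  rw [Real.smoothTransition.one_of_one_le (x := (t - δ) / δ)
      (by rw [le_div_iff₀ hδ]; linarith),
    Real.smoothTransition.one_of_one_le (x := 4 * (3 / 4 - t)) (by linarith), mul_one]

/-- The test field. -/
noncomputable def XX (δ : ℝ) (n : ℕ) (p : Polynomial ℝ) (x : E 2) : ℝ :=
  chi4 δ (x 1) * (smoothTransition (3 - x 0) *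
    (smoothTransition (n * (x 0 - p.eval (x 1))) * Real.arctan (x 0 / x 1)))

lemma XX_smooth {δ : ℝ} (hδ : 0 < δ) (n : ℕ) (p : Polynomial ℝ) : ContDiff ℝ ∞ (XX δ n p) := by
  rw [contDiff_iff_contDiffAt]
  intro x
  rcases lt_or_ge (x 1) δ with hx | hx
  · have h : XX δ n p =ᶠ[𝓝 x] fun _ => 0 := by
      have : {y : E 2 | y 1 < δ} ∈ 𝓝 x := (isOpen_lt (coord_cont 1) continuous_const).mem_nhds hx
      filter_upwards [this] with y hy
      unfold XX
      rw [chi4_zero hδ (Or.inl (le_of_lt hy)), zero_mul]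
    exact contDiffAt_const.congr_of_eventuallyEq h
  · have h1 : x 1 ≠ 0 := by linarith
    have c0 : ContDiff ℝ ∞ (fun x : E 2 => x 0) := by fun_prop
    have c1 : ContDiff ℝ ∞ (fun x : E 2 => x 1) := by fun_prop
    have cp : ContDiff ℝ ∞ (fun t : ℝ => p.eval t) := by
      simpa [Polynomial.coe_aeval_eq_eval] using p.contDiff_aeval (𝕜 := ℝ) ∞
    have a1 : ContDiffAt ℝ ∞ (fun x : E 2 => chi4 δ (x 1)) x :=
      ((chi4_smooth δ).comp c1).contDiffAt
    have a2 : ContDiffAt ℝ ∞ (fun x : E 2 => smoothTransition (3 - x 0)) x :=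
      (Real.smoothTransition.contDiff.comp (contDiff_const.sub c0)).contDiffAt
    have a3 : ContDiffAt ℝ ∞
        (fun x : E 2 => smoothTransition (n * (x 0 - p.eval (x 1)))) x :=
      (Real.smoothTransition.contDiff.comp
        (contDiff_const.mul (c0.sub (cp.comp c1)))).contDiffAt
    have a4 : ContDiffAt ℝ ∞ (fun x : E 2 => Real.arctan (x 0 / x 1)) x :=
      Real.contDiff_arctan.contDiffAt.comp x (c0.contDiffAt.div c1.contDiffAt h1)
    exact a1.mul (a2.mul (a3.mul a4))

lemma XX_bound (δ : ℝ) (n : ℕ) (p : Polynomial ℝ) (x : E 2) : |XX δ n p x| ≤ 2 := by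
  unfold XX
  rw [abs_mul, abs_mul, abs_mul, abs_of_nonneg (chi4_nonneg _ _),
    abs_of_nonneg (Real.smoothTransition.nonneg _), abs_of_nonneg (Real.smoothTransition.nonneg _)]
  have h1 : |Real.arctan (x 0 / x 1)| ≤ 2 := by
    have a := Real.arctan_lt_pi_div_two (x 0 / x 1)
    have b := Real.neg_pi_div_two_lt_arctan (x 0 / x 1)
    have c := Real.pi_le_four
    rw [abs_le]; constructor <;> linarith
  have c1 := chi4_le_one δ (x 1)
  have c2 := Real.smoothTransition.le_one (3 - x 0)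
  have c3 := Real.smoothTransition.le_one (n * (x 0 - p.eval (x 1)))
  have d1 := chi4_nonneg δ (x 1)
  have d2 := Real.smoothTransition.nonneg (3 - x 0)
  have d3 := Real.smoothTransition.nonneg (n * (x 0 - p.eval (x 1)))
  have e3 : smoothTransition (n * (x 0 - p.eval (x 1))) * |Real.arctan (x 0 / x 1)| ≤ 1 * 2 :=
    mul_le_mul c3 h1 (abs_nonneg _) (by norm_num)
  have e2 : smoothTransition (3 - x 0) *
      (smoothTransition (n * (x 0 - p.eval (x 1))) * |Real.arctan (x 0 / x 1)|) ≤ 1 * (1 * 2) :=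
    mul_le_mul c2 e3 (by positivity) (by norm_num)
  have e1 : chi4 δ (x 1) * (smoothTransition (3 - x 0) *
      (smoothTransition (n * (x 0 - p.eval (x 1))) * |Real.arctan (x 0 / x 1)|)) ≤
        1 * (1 * (1 * 2)) :=
    mul_le_mul c1 e2 (by positivity) (by norm_num)
  linarith

/-- `p` approximates the profile from above. -/
def Approx (n : ℕ) (p : Polynomial ℝ) : Prop :=
  ∀ t ∈ Icc (0 : ℝ) 1, gg t + 1 / n ≤ p.eval t ∧ p.eval t ≤ gg t + 3 / n

lemma exists_approx {n : ℕ} (hn : 0 < n) : ∃ p, Approx n p := by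
  have hn' : (0 : ℝ) < n := by exact_mod_cast hn
  obtain ⟨p, hp⟩ := exists_polynomial_near_of_continuousOn 0 1 (fun t => gg t + 2 / n)
    ((gg_cont.add continuous_const).continuousOn) (1 / n) (by positivity)
  refine ⟨p, ?_⟩
  intro t ht
  have := abs_lt.1 (hp t ht)
  have h2 : (2 : ℝ) / n = 1 / n + 1 / n := by ring
  have h3 : (3 : ℝ) / n = 1 / n + 1 / n + 1 / n := by ring
  constructor <;> linarith

lemma XX_supp {δ : ℝ} (hδ : 0 < δ) {n : ℕ} (hn : 0 < n) {p : Polynomial ℝ} (hp : Approx n p)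
    {x : E 2} (hx : XX δ n p x ≠ 0) :
    (δ ≤ x 1 ∧ x 1 ≤ 3 / 4) ∧ (gg (x 1) + 1 / n ≤ x 0 ∧ x 0 ≤ 3) := by
  have hn' : (0 : ℝ) < n := by exact_mod_cast hn
  have h1 : δ < x 1 ∧ x 1 < 3 / 4 := by
    by_contra hcon
    apply hx
    unfold XX
    rw [chi4_zero hδ, zero_mul]
    by_contra h2
    push Not at h2
    exact hcon ⟨h2.1, h2.2⟩
  have h2 : x 0 ≤ 3 := by
    by_contra hcon
    push Not at hcon
    apply hx
    unfold XX
    rw [Real.smoothTransition.zero_of_nonpos (x := 3 - x 0) (by linarith)]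
    ring
  have h3 : gg (x 1) + 1 / n ≤ x 0 := by
    by_contra hcon
    push Not at hcon
    apply hx
    unfold XX
    have h4 := (hp (x 1) ⟨by linarith, by linarith⟩).1
    rw [Real.smoothTransition.zero_of_nonpos (x := n * (x 0 - p.eval (x 1)))]
    · ring
    · apply mul_nonpos_of_nonneg_of_nonpos hn'.le
      linarith
  exact ⟨⟨h1.1.le, h1.2.le⟩, h3, h2⟩

lemma XX_tsupp {δ : ℝ} (hδ : 0 < δ) {n : ℕ} (hn : 0 < n) {p : Polynomial ℝ} (hp : Approx n p) :
    tsupport (XX δ n p) ⊆ Om ∧ HasCompactSupport (XX δ n p) := by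
  have hn' : (0 : ℝ) < n := by exact_mod_cast hn
  have c0 := coord_cont 0
  have c1 := coord_cont 1
  set S : Set (E 2) := {x | (δ ≤ x 1 ∧ x 1 ≤ 3 / 4) ∧ (gg (x 1) + 1 / n ≤ x 0 ∧ x 0 ≤ 3)} with hS
  have hcl : IsClosed S := by
    apply IsClosed.inter
    · exact (isClosed_le continuous_const c1).inter (isClosed_le c1 continuous_const)
    · exact (isClosed_le ((gg_cont.comp c1).add continuous_const) c0).inter
        (isClosed_le c0 continuous_const)
  have hsubOm : S ⊆ Om := by
    intro x hx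
    obtain ⟨⟨a, b⟩, c, d⟩ := hx
    have hpos : (0 : ℝ) < 1 / n := by positivity
    have hgg : 0 ≤ gg (x 1) := by
      have := half_le_gg (t := x 1) (by linarith) (by linarith)
      linarith
    refine ⟨Or.inr (by linarith), ?_, ?_⟩
    · rw [abs_lt]; constructor <;> linarith
    · rw [abs_lt]; constructor <;> linarith
  have hsup : Function.support (XX δ n p) ⊆ S := fun x hx => XX_supp hδ hn hp hx
  have hts : tsupport (XX δ n p) ⊆ S := closure_minimal hsup hcl
  refine ⟨hts.trans hsubOm, ?_⟩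
  have hcomp : IsCompact S := by
    apply Metric.isCompact_of_isClosed_isBounded hcl
    exact isBounded_Om.subset hsubOm
  exact HasCompactSupport.of_support_subset_isCompact hcomp hsup

/-- Lower bound of the derivative where the `α`-mass lives. -/
lemma XX_deriv {δ : ℝ} (hδ : 0 < δ) {n : ℕ} {p : Polynomial ℝ} {x : E 2}
    (h1 : 0 < x 1 → x 1 < 1 → 0 ≤ x 0 ∧ x 0 ≤ 1) :
    chi4 δ (x 1) * smoothTransition (n * (x 0 - p.eval (x 1))) * (x 1 / (x 0 ^ 2 + x 1 ^ 2)) ≤
      fderiv ℝ (XX δ n p) x (EuclideanSpace.single 0 1) := by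
  have hXs : Differentiable ℝ (XX δ n p) := (XX_smooth hδ n p).differentiable (by simp)
  have hline : HasDerivAt (fun s : ℝ => x + s • (EuclideanSpace.single 0 (1 : ℝ) : E 2))
      (EuclideanSpace.single 0 1) 0 := by
    have := ((hasDerivAt_id (0 : ℝ)).smul_const (EuclideanSpace.single 0 (1 : ℝ) : E 2)).const_add x
    simpa using this
  have hcomp : HasDerivAt (fun s : ℝ => XX δ n p (x + s • (EuclideanSpace.single 0 (1 : ℝ) : E 2)))
      (fderiv ℝ (XX δ n p) x (EuclideanSpace.single 0 1)) 0 := by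
    have h0 : HasFDerivAt (XX δ n p) (fderiv ℝ (XX δ n p) x)
        (x + (0 : ℝ) • (EuclideanSpace.single 0 (1 : ℝ) : E 2)) := by
      simpa using (hXs x).hasFDerivAt
    exact h0.comp_hasDerivAt (0 : ℝ) hline
  by_cases hc : chi4 δ (x 1) = 0
  · -- the derivative vanishes
    rw [hc]
    have : fderiv ℝ (XX δ n p) x (EuclideanSpace.single 0 1) = 0 := by
      have h2 : (fun s : ℝ => XX δ n p (x + s • (EuclideanSpace.single 0 (1 : ℝ) : E 2))) =
          fun _ => 0 := by
        funext s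
        unfold XX
        have e1 : (x + s • (EuclideanSpace.single 0 (1 : ℝ) : E 2)) 1 = x 1 := by simp
        rw [e1, hc, zero_mul]
      rw [h2] at hcomp
      exact hcomp.unique (hasDerivAt_const _ _)
    rw [this]; simp
  · have ht : δ < x 1 ∧ x 1 < 3 / 4 := by
      by_contra hcon
      apply hc
      apply chi4_zero hδ
      by_contra h2
      push Not at h2
      exact hcon ⟨h2.1, h2.2⟩
    have hx1 : 0 < x 1 := hδ.trans ht.1
    obtain ⟨hx0, hx01⟩ := h1 hx1 (by linarith [ht.2])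
    -- explicit derivative
    set q : ℝ := p.eval (x 1) with hq
    have e : (fun s : ℝ => XX δ n p (x + s • (EuclideanSpace.single 0 (1 : ℝ) : E 2))) =ᶠ[𝓝 0]
        fun s => chi4 δ (x 1) * (smoothTransition (n * (x 0 + s - q)) *
          Real.arctan ((x 0 + s) / x 1)) := by
      have hnb : Iio (1 : ℝ) ∈ 𝓝 (0 : ℝ) := Iio_mem_nhds (by norm_num)
      filter_upwards [hnb] with s hs
      unfold XX
      have e0 : (x + s • (EuclideanSpace.single 0 (1 : ℝ) : E 2)) 0 = x 0 + s := by simp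
      have e1 : (x + s • (EuclideanSpace.single 0 (1 : ℝ) : E 2)) 1 = x 1 := by simp
      have hs' : s < 1 := hs
      rw [e0, e1, Real.smoothTransition.one_of_one_le (x := 3 - (x 0 + s)) (by linarith), one_mul]
    have hθ : Differentiable ℝ smoothTransition :=
      (Real.smoothTransition.contDiff (n := 1)).differentiable (by norm_num)
    have g1 : HasDerivAt (fun s : ℝ => (n : ℝ) * (x 0 + s - q)) n 0 := by
      have := (((hasDerivAt_id (0 : ℝ)).const_add (x 0)).sub_const q).const_mul (n : ℝ)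
      simpa using this
    have g2 : HasDerivAt (fun s : ℝ => smoothTransition (n * (x 0 + s - q)))
        (deriv smoothTransition (n * (x 0 + 0 - q)) * n) 0 :=
      (hθ _).hasDerivAt.comp (0 : ℝ) g1
    have g3 : HasDerivAt (fun s : ℝ => (x 0 + s) / x 1) (1 / x 1) 0 := by
      have := ((hasDerivAt_id (0 : ℝ)).const_add (x 0)).div_const (x 1)
      simpa using this
    have g4 : HasDerivAt (fun s : ℝ => Real.arctan ((x 0 + s) / x 1))
        (1 / (1 + ((x 0 + 0) / x 1) ^ 2) * (1 / x 1)) 0 := g3.arctan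
    have g5 := (g2.mul g4).const_mul (chi4 δ (x 1))
    have g6 := hcomp.congr_of_eventuallyEq e.symm
    have g7 := g6.unique g5
    rw [g7]
    simp only [add_zero]
    have d1 := chi4_nonneg δ (x 1)
    have d2 : 0 ≤ deriv smoothTransition (n * (x 0 - q)) := Real.smoothTransition.monotone.deriv_nonneg
    have d3 : 0 ≤ Real.arctan (x 0 / x 1) := by
      rw [Real.arctan_nonneg]; positivity
    have d4 : x 1 / (x 0 ^ 2 + x 1 ^ 2) = 1 / (1 + (x 0 / x 1) ^ 2) * (1 / x 1) := by
      field_simp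
      ring
    rw [d4, mul_assoc]
    apply mul_le_mul_of_nonneg_left _ d1
    have d5 : 0 ≤ deriv smoothTransition (n * (x 0 - q)) * n * Real.arctan (x 0 / x 1) := by
      positivity
    linarith

end Pool.Agent.Lib.MP_5ff43f_an
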