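import Pool.Agent.Lib.MP_5ff43f_an.Dom

open MeasureTheory Set Filter
open scoped RealInnerProductSpace ENNReal NNReal Topology ContDiff

namespace Pool.Agent.Lib.MP_5ff43f_an

lemma hess_congr {d : ℕ} {φ φ' : E d → ℝ} {x : E d} (h : φ =ᶠ[𝓝 x] φ') :
    hess φ x = hess φ' x := by
  unfold hess
  ext i j
  simp only [Matrix.of_apply]
  have h2 : (fun y => fderiv ℝ φ y (EuclideanSpace.single j 1)) =ᶠ[𝓝 x]
      (fun y => fderiv ℝ φ' y (EuclideanSpace.single j 1)) := by
    have := h.fderiv (𝕜 := ℝ)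
    filter_upwards [this] with y hy
    rw [hy]
  rw [h2.fderiv_eq]

lemma hasFDerivAt_prod {a b : ℝ → ℝ} (ha : Differentiable ℝ a) (hb : Differentiable ℝ b) (y : E 2) :
    HasFDerivAt (fun y : E 2 => a (y 0) * b (y 1))
      (a (y 0) • (deriv b (y 1) • (EuclideanSpace.proj 1 : E 2 →L[ℝ] ℝ)) +
        b (y 1) • (deriv a (y 0) • (EuclideanSpace.proj 0 : E 2 →L[ℝ] ℝ))) y := by
  have h0 : HasFDerivAt (fun y : E 2 => y 0) (EuclideanSpace.proj 0 : E 2 →L[ℝ] ℝ) y :=
    (EuclideanSpace.proj 0 : E 2 →L[ℝ] ℝ).hasFDerivAt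
  have h1 : HasFDerivAt (fun y : E 2 => y 1) (EuclideanSpace.proj 1 : E 2 →L[ℝ] ℝ) y :=
    (EuclideanSpace.proj 1 : E 2 →L[ℝ] ℝ).hasFDerivAt
  have ha' := (ha (y 0)).hasDerivAt.comp_hasFDerivAt y h0
  have hb' := (hb (y 1)).hasDerivAt.comp_hasFDerivAt y h1
  exact ha'.mul hb'

lemma pd0 {a b : ℝ → ℝ} (ha : Differentiable ℝ a) (hb : Differentiable ℝ b) (y : E 2) :
    fderiv ℝ (fun y : E 2 => a (y 0) * b (y 1)) y (EuclideanSpace.single 0 1) =
      deriv a (y 0) * b (y 1) := by
  rw [(hasFDerivAt_prod ha hb y).fderiv]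
  simp [mul_comm]

lemma pd1 {a b : ℝ → ℝ} (ha : Differentiable ℝ a) (hb : Differentiable ℝ b) (y : E 2) :
    fderiv ℝ (fun y : E 2 => a (y 0) * b (y 1)) y (EuclideanSpace.single 1 1) =
      a (y 0) * deriv b (y 1) := by
  rw [(hasFDerivAt_prod ha hb y).fderiv]
  simp

lemma smooth_diff {a : ℝ → ℝ} (ha : ContDiff ℝ ∞ a) : Differentiable ℝ a :=
  ha.differentiable (by simp)

lemma smooth_deriv {a : ℝ → ℝ} (ha : ContDiff ℝ ∞ a) : ContDiff ℝ ∞ (deriv a) :=
  (contDiff_infty_iff_deriv.1 ha).2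

lemma hess_prod {a b : ℝ → ℝ} (ha : ContDiff ℝ ∞ a) (hb : ContDiff ℝ ∞ b) (x : E 2) :
    hess (fun y : E 2 => a (y 0) * b (y 1)) x 0 0 = deriv (deriv a) (x 0) * b (x 1) ∧
    hess (fun y : E 2 => a (y 0) * b (y 1)) x 0 1 = deriv a (x 0) * deriv b (x 1) ∧
    hess (fun y : E 2 => a (y 0) * b (y 1)) x 1 0 = deriv a (x 0) * deriv b (x 1) ∧
    hess (fun y : E 2 => a (y 0) * b (y 1)) x 1 1 = a (x 0) * deriv (deriv b) (x 1) := by
  have da := smooth_diff ha
  have db := smooth_diff hb
  have da' := smooth_diff (smooth_deriv ha)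
  have db' := smooth_diff (smooth_deriv hb)
  have e0 : (fun y : E 2 => fderiv ℝ (fun y : E 2 => a (y 0) * b (y 1)) y
      (EuclideanSpace.single 0 1)) = fun y => deriv a (y 0) * b (y 1) := by
    funext y; exact pd0 da db y
  have e1 : (fun y : E 2 => fderiv ℝ (fun y : E 2 => a (y 0) * b (y 1)) y
      (EuclideanSpace.single 1 1)) = fun y => a (y 0) * deriv b (y 1) := by
    funext y; exact pd1 da db y
  refine ⟨?_, ?_, ?_, ?_⟩
  · simp only [hess, Matrix.of_apply]
    rw [e0]; exact pd0 da' db x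
  · simp only [hess, Matrix.of_apply]
    rw [e1]; exact pd0 da db' x
  · simp only [hess, Matrix.of_apply]
    rw [e0]; exact pd1 da' db x
  · simp only [hess, Matrix.of_apply]
    rw [e1]; exact pd1 da db' x

lemma hess_prod' {a b : ℝ → ℝ} (ha : ContDiff ℝ ∞ a) (hb : ContDiff ℝ ∞ b) (x : E 2)
    (A : Matrix (Fin 2) (Fin 2) ℝ) :
    ∑ i, ∑ j, hess (fun y : E 2 => a (y 0) * b (y 1)) x i j * A i j =
      deriv (deriv a) (x 0) * b (x 1) * A 0 0 + deriv a (x 0) * deriv b (x 1) * (A 0 1 + A 1 0) +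
        a (x 0) * deriv (deriv b) (x 1) * A 1 1 := by
  obtain ⟨h1, h2, h3, h4⟩ := hess_prod ha hb x
  simp only [Fin.sum_univ_two, h1, h2, h3, h4]
  ring

/-- The four points. -/
noncomputable def pa : E 2 := !₂[-1, 0]
noncomputable def pb : E 2 := !₂[0, -1]
noncomputable def pc : E 2 := !₂[2, 1]
noncomputable def pd : E 2 := !₂[1, 2]

lemma pab : pa ≠ pb := by
  intro h
  have := congrArg (fun x : E 2 => x 0) h
  simp [pa, pb] at this

lemma pad : pa ≠ pd := by
  intro h
  have := congrArg (fun x : E 2 => x 1) h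
  simp [pa, pd] at this

lemma pcb : pc ≠ pb := by
  intro h
  have := congrArg (fun x : E 2 => x 0) h
  simp [pc, pb] at this

lemma pcd : pc ≠ pd := by
  intro h
  have := congrArg (fun x : E 2 => x 0) h
  simp [pc, pd] at this

/-- The Jordan decomposition of the load. -/
noncomputable def jj : JordanDecomposition (E 2) where
  posPart := Measure.dirac pa + Measure.dirac pc
  negPart := Measure.dirac pb + Measure.dirac pd
  posPart_finite := inferInstance
  negPart_finite := inferInstance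
  mutuallySingular := by
    refine ⟨{pb, pd}, (measurableSet_singleton pb).union (measurableSet_singleton pd), ?_, ?_⟩
    · have h1 : pa ∉ ({pb, pd} : Set (E 2)) := by
        simp [pab, pad]
      have h2 : pc ∉ ({pb, pd} : Set (E 2)) := by
        simp [pcb, pcd]
      simp [h1, h2]
    · have hm : MeasurableSet ({pb, pd} : Set (E 2)) :=
        (measurableSet_singleton pb).union (measurableSet_singleton pd)
      simp [Measure.dirac_apply' _ hm.compl]

/-- The load `f = δ_a - δ_b + δ_c - δ_d`. -/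
noncomputable def ff : SignedMeasure (E 2) := jj.toSignedMeasure

lemma sint_ff (φ : E 2 → ℝ) : sint ff φ = φ pa + φ pc - (φ pb + φ pd) := by
  unfold sint ff
  rw [JordanDecomposition.toJordanDecomposition_toSignedMeasure]
  have hint : ∀ p : E 2, Integrable φ (Measure.dirac p) := fun p =>
    integrable_dirac (by simp)
  change ∫ x, φ x ∂(Measure.dirac pa + Measure.dirac pc) -
    ∫ x, φ x ∂(Measure.dirac pb + Measure.dirac pd) = _
  rw [integral_add_measure (hint _) (hint _), integral_add_measure (hint _) (hint _)]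
  simp only [integral_dirac]

lemma gg_zero : gg 0 = 0 := gg_of_mem (by norm_num) zero_mem_KK
lemma gg_one : gg 1 = 1 := gg_of_one_le le_rfl

lemma coord_mk (a b : ℝ) : (!₂[a, b] : E 2) 0 = a ∧ (!₂[a, b] : E 2) 1 = b := by simp

/-- A point of the closed region is in the closure as soon as it is a limit along `(1,-1)`. -/
lemma mem_closure_of_shift {x : E 2} (h : ∀ ε : ℝ, 0 < ε → ε < 1 → x + ε • !₂[1, -1] ∈ Om) :
    x ∈ closure Om := by
  have hc : Tendsto (fun ε : ℝ => x + ε • (!₂[1, -1] : E 2)) (𝓝[>] 0) (𝓝 x) := by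
    have : Continuous fun ε : ℝ => x + ε • (!₂[1, -1] : E 2) := by fun_prop
    have h2 := (this.tendsto 0).mono_left (nhdsWithin_le_nhds (s := Ioi 0))
    simpa using h2
  apply mem_closure_of_tendsto hc
  have h1 : Ioo (0 : ℝ) 1 ∈ 𝓝[>] (0 : ℝ) := Ioo_mem_nhdsGT (by norm_num)
  filter_upwards [h1] with ε hε
  exact h ε hε.1 hε.2

lemma mem_closure_of_weak {x : E 2} (h : x 1 ≤ 0 ∨ gg (x 1) ≤ x 0) (h0 : |x 0| ≤ 3)
    (h1 : |x 1| ≤ 3) : x ∈ closure Om := by
  apply mem_closure_of_shift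
  intro ε hε hε1
  have e0 : (x + ε • (!₂[1, -1] : E 2)) 0 = x 0 + ε := by simp
  have e1 : (x + ε • (!₂[1, -1] : E 2)) 1 = x 1 - ε := by simp [sub_eq_add_neg]
  rw [abs_le] at h0 h1
  refine ⟨?_, ?_, ?_⟩
  · rw [e0, e1]
    rcases h with h | h
    · left; linarith
    · right
      have := gg_mono (show x 1 - ε ≤ x 1 by linarith)
      linarith
  · rw [e0, abs_lt]; constructor <;> linarith
  · rw [e1, abs_lt]; constructor <;> linarith

lemma ff_supp : ff.totalVariation (closure Om)ᶜ = 0 := by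
  have hm : MeasurableSet (closure Om)ᶜ := isClosed_closure.measurableSet.compl
  unfold SignedMeasure.totalVariation ff
  rw [JordanDecomposition.toJordanDecomposition_toSignedMeasure]
  have ha : pa ∈ closure Om := by
    apply mem_closure_of_weak <;> simp [pa]
  have hb : pb ∈ closure Om := by
    apply mem_closure_of_weak <;> simp [pb]
  have hc : pc ∈ closure Om := by
    apply mem_closure_of_weak
    · right; simp [pc, gg_one]
    · simp [pc]; norm_num
    · simp [pc]
  have hd : pd ∈ closure Om := by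
    apply mem_closure_of_weak
    · right
      have : gg 2 = 1 := gg_of_one_le (by norm_num)
      simp [pd, this]
    · simp [pd]
    · simp [pd]; norm_num
  change (Measure.dirac pa + Measure.dirac pc + (Measure.dirac pb + Measure.dirac pd))
    (closure Om)ᶜ = 0
  simp [Measure.dirac_apply' _ hm, ha, hb, hc, hd]

/-- A smooth compactly supported cutoff that is `1` near the closure of the domain. -/
lemma exists_cutoff : ∃ χ : E 2 → ℝ, ContDiff ℝ ∞ χ ∧ HasCompactSupport χ ∧
    ∀ x ∈ closure Om, χ =ᶠ[𝓝 x] 1 := by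
  let B : ContDiffBump (0 : E 2) := ⟨7, 8, by norm_num, by norm_num⟩
  refine ⟨B, B.contDiff, B.hasCompactSupport, ?_⟩
  intro x hx
  have h := closure_Om_sub hx
  have hn : ‖x‖ < 7 := by
    have h2 := norm_sq_E2 x
    have h3 := abs_le.1 h.2.1
    have h4 := abs_le.1 h.2.2
    have : ‖x‖ ^ 2 < 7 ^ 2 := by nlinarith
    exact lt_of_pow_lt_pow_left₀ 2 (by norm_num) this
  exact B.eventuallyEq_one_of_mem_ball (by simpa using hn)

lemma Admissible.eqn' {σ : TensorMeasure 2} (h : Admissible Om ff σ) {φ : E 2 → ℝ}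
    (hφ : ContDiff ℝ ∞ φ) : σ.pair (hess φ) = φ pa + φ pc - (φ pb + φ pd) := by
  obtain ⟨χ, hχ, hχc, hχ1⟩ := exists_cutoff
  have h1 := h.eqn (fun x => χ x * φ x) (hχ.mul hφ) hχc.mul_right
  have ha : pa ∈ closure Om := by
    apply mem_closure_of_weak <;> simp [pa]
  have hb : pb ∈ closure Om := by
    apply mem_closure_of_weak <;> simp [pb]
  have hc : pc ∈ closure Om := by
    apply mem_closure_of_weak
    · right; simp [pc, gg_one]
    · simp [pc]; norm_num
    · simp [pc]
  have hd : pd ∈ closure Om := by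
    apply mem_closure_of_weak
    · right
      have : gg 2 = 1 := gg_of_one_le (by norm_num)
      simp [pd, this]
    · simp [pd]
    · simp [pd]; norm_num
  rw [sint_ff] at h1
  have e : ∀ x ∈ closure Om, χ x = 1 := fun x hx => (hχ1 x hx).eq_of_nhds
  simp only [e _ ha, e _ hb, e _ hc, e _ hd, one_mul] at h1
  rw [← h1]
  unfold TensorMeasure.pair
  apply integral_congr_ae
  filter_upwards [h.supp] with x hx
  by_cases hxc : x ∈ closure Om
  · have : hess (fun x => χ x * φ x) x = hess φ x := by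
      apply hess_congr
      filter_upwards [hχ1 x hxc] with y hy
      rw [hy]; simp
    rw [this]
  · simp [hx hxc]

/-- The equation tested with products. -/
lemma Admissible.prod {σ : TensorMeasure 2} (h : Admissible Om ff σ) {a b : ℝ → ℝ}
    (ha : ContDiff ℝ ∞ a) (hb : ContDiff ℝ ∞ b) :
    ∫ x, (deriv (deriv a) (x 0) * b (x 1) * σ.dens x 0 0 +
        deriv a (x 0) * deriv b (x 1) * (σ.dens x 0 1 + σ.dens x 1 0) +
        a (x 0) * deriv (deriv b) (x 1) * σ.dens x 1 1) ∂σ.base =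
      a (-1) * b 0 + a 2 * b 1 - (a 0 * b (-1) + a 1 * b 2) := by
  have hφ : ContDiff ℝ ∞ (fun y : E 2 => a (y 0) * b (y 1)) := by
    have h0 : ContDiff ℝ ∞ (fun y : E 2 => y 0) := by fun_prop
    have h1 : ContDiff ℝ ∞ (fun y : E 2 => y 1) := by fun_prop
    exact (ha.comp h0).mul (hb.comp h1)
  have h2 := h.eqn' hφ
  unfold TensorMeasure.pair at h2
  simp only [hess_prod' ha hb] at h2
  rw [h2]
  simp [pa, pb, pc, pd]

end Pool.Agent.Lib.MP_5ff43f_an
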