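import Pool.Agent.Lib.MP_5ff43f_an.Defs

open MeasureTheory Set
open scoped RealInnerProductSpace ENNReal NNReal Topology

namespace Pool.Agent.Lib.MP_5ff43f_an

/-- An open set that is star-shaped with respect to a ball contained in it has Lipschitz
boundary. -/
theorem hasLipschitzBoundary_of_star {d : ℕ} {Ω : Set (E d)} (hΩ : IsOpen Ω) {c : E d} {ρ : ℝ}
    (hρ : 0 < ρ) (hball : Metric.ball c ρ ⊆ Ω)
    (hstar : ∀ q ∈ Ω, ∀ c' ∈ Metric.ball c ρ, segment ℝ q c' ⊆ Ω) :
    HasLipschitzBoundary Ω := by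
  intro p hp
  have hpΩ : p ∉ Ω := by
    rw [hΩ.frontier_eq] at hp
    exact hp.2
  have hpc : p ∈ closure Ω := frontier_subset_closure hp
  set R : ℝ := ‖c - p‖ with hR
  have hRρ : ρ ≤ R := by
    by_contra hlt
    push Not at hlt
    apply hpΩ
    apply hball
    rw [Metric.mem_ball, dist_eq_norm, ← norm_neg]
    simpa [hR] using hlt
  have hRpos : 0 < R := lt_of_lt_of_le hρ hRρ
  set ν : E d := R⁻¹ • (c - p) with hν
  have hνn : ‖ν‖ = 1 := by
    rw [hν, norm_smul, norm_inv, Real.norm_of_nonneg hRpos.le, ← hR]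
    exact inv_mul_cancel₀ hRpos.ne'
  have hcp : c - p = R • ν := by
    rw [hν, smul_smul, mul_inv_cancel₀ hRpos.ne', one_smul]
  set r : ℝ := ρ / 2 with hr
  have hrpos : 0 < r := by positivity
  set κ : ℝ := 2 * R / ρ with hκ
  have hκpos : 0 < κ := by positivity
  -- projection onto the orthogonal complement of ν
  let P : E d → E d := fun v => v - ⟪ν, v⟫ • ν
  have hPsub : ∀ v w, P (v - w) = P v - P w := by
    intro v w
    simp only [P, inner_sub_right, sub_smul]
    abel
  have hPadd : ∀ v w, P (v + w) = P v + P w := by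
    intro v w
    simp only [P, inner_add_right, add_smul]
    abel
  have hPν : P ν = 0 := by
    simp [P, real_inner_self_eq_norm_sq, hνn]
  have hPsmul : ∀ (a : ℝ) v, P (a • v) = a • P v := by
    intro a v
    simp only [P, inner_smul_right, smul_sub, smul_smul]
  have hPle : ∀ v, ‖P v‖ ≤ ‖v‖ := by
    intro v
    have h1 : ‖P v‖ ^ 2 = ‖v‖ ^ 2 - ⟪ν, v⟫ ^ 2 := by
      simp only [P]
      rw [norm_sub_sq_real, inner_smul_right, norm_smul, hνn, real_inner_comm]
      simp
      ring
    have h2 : ‖P v‖ ^ 2 ≤ ‖v‖ ^ 2 := by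
      rw [h1]; nlinarith [sq_nonneg (⟪ν, v⟫)]
    exact le_of_sq_le_sq h2 (norm_nonneg _)
  let S : Set (E d) := Ω ∩ Metric.ball p r
  have hSne : S.Nonempty := by
    obtain ⟨q, hq1, hq2⟩ := mem_closure_iff.1 hpc (Metric.ball p r) Metric.isOpen_ball
      (Metric.mem_ball_self hrpos)
    exact ⟨q, hq2, hq1⟩
  have : Nonempty S := hSne.to_subtype
  let F : E d → E d → ℝ := fun w q => ⟪ν, q⟫ + κ * ‖P (w - q)‖
  let ψ : E d → ℝ := fun w => ⨅ q : S, F w q
  have hinner_le : ∀ q ∈ S, ⟪ν, p⟫ - r ≤ ⟪ν, q⟫ := by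
    intro q hq
    have h1 : ‖q - p‖ < r := by
      have := hq.2
      rwa [Metric.mem_ball, dist_eq_norm] at this
    have h2 : |⟪ν, q - p⟫| ≤ ‖ν‖ * ‖q - p‖ := abs_real_inner_le_norm _ _
    rw [hνn, one_mul, inner_sub_right] at h2
    have h3 := neg_le_of_abs_le h2
    linarith
  have hbdd : ∀ w, BddBelow (range fun q : S => F w q) := by
    intro w
    refine ⟨⟪ν, p⟫ - r, ?_⟩
    rintro _ ⟨q, rfl⟩
    have h1 := hinner_le q q.2
    have h2 : 0 ≤ κ * ‖P (w - q)‖ := by positivity
    simp only [F]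
    linarith
  refine ⟨ν, r, ⟨κ, hκpos.le⟩, ψ, hνn, hrpos, ?_, ?_, ?_⟩
  · -- Lipschitz
    apply LipschitzWith.of_le_add_mul
    intro w w'
    have : ψ w - κ * dist w w' ≤ ψ w' := by
      apply le_ciInf
      intro q
      have h1 : ψ w ≤ F w q := ciInf_le (hbdd w) q
      have h2 : ‖P (w - q)‖ ≤ ‖P (w' - q)‖ + ‖w - w'‖ := by
        have h3 : w - q = (w' - q) + (w - w') := by abel
        rw [h3, hPadd]
        exact (norm_add_le _ _).trans (by gcongr; exact hPle _)
      have h4 : κ * ‖P (w - q)‖ ≤ κ * ‖P (w' - q)‖ + κ * ‖w - w'‖ := by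
        rw [← mul_add]
        exact mul_le_mul_of_nonneg_left h2 hκpos.le
      rw [dist_eq_norm]
      simp only [F] at h1 ⊢
      linarith
    change ψ w ≤ ψ w' + κ * dist w w'
    linarith
  · intro q τ
    simp only [ψ, F]
    congr 1
    funext s
    have : q + τ • ν - (s : E d) = (q - s) + τ • ν := by abel
    rw [this, hPadd, hPsmul, hPν, smul_zero, add_zero]
  · intro q' hq'
    have hq'n : ‖q' - p‖ < r := by rwa [Metric.mem_ball, dist_eq_norm] at hq'
    constructor
    · intro hq'Ω
      have hopen : IsOpen S := hΩ.inter Metric.isOpen_ball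
      obtain ⟨ε, hε, hball'⟩ := Metric.isOpen_iff.1 hopen q' ⟨hq'Ω, hq'⟩
      have hmem : q' - (ε / 2) • ν ∈ S := by
        apply hball'
        rw [Metric.mem_ball, dist_eq_norm]
        have : q' - (ε / 2) • ν - q' = -((ε / 2) • ν) := by abel
        rw [this, norm_neg, norm_smul, hνn, mul_one, Real.norm_of_nonneg (by positivity)]
        linarith
      have h1 : ψ q' ≤ F q' (q' - (ε / 2) • ν) :=
        ciInf_le (hbdd q') (⟨q' - (ε / 2) • ν, hmem⟩ : S)
      have h2 : F q' (q' - (ε / 2) • ν) = ⟪ν, q'⟫ - ε / 2 := by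
        simp only [F]
        have : q' - (q' - (ε / 2) • ν) = (ε / 2) • ν := by abel
        rw [this, hPsmul, hPν, smul_zero, norm_zero, mul_zero, add_zero, inner_sub_right,
          inner_smul_right, real_inner_self_eq_norm_sq, hνn]
        ring
      rw [h2] at h1
      linarith
    · intro hlt
      obtain ⟨q, hq⟩ := exists_lt_of_ciInf_lt hlt
      have hqn : ‖(q : E d) - p‖ < r := by
        have := q.2.2
        rwa [Metric.mem_ball, dist_eq_norm] at this
      set h : E d := q' - q with hh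
      set τ : ℝ := ⟪ν, h⟫ with hτ
      have hτκ : κ * ‖P h‖ < τ := by
        simp only [F] at hq
        rw [hτ, hh, inner_sub_right]
        linarith
      have hτpos : 0 < τ := lt_of_le_of_lt (by positivity) hτκ
      have hhdecomp : h = τ • ν + P h := by
        simp only [P, ← hτ]; abel
      have hhn : ‖h‖ < ρ := by
        have : h = (q' - p) - (q - p) := by rw [hh]; abel
        rw [this]
        calc ‖(q' - p) - (q - p)‖ ≤ ‖q' - p‖ + ‖(q : E d) - p‖ := norm_sub_le _ _
          _ < r + r := by linarith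
          _ = ρ := by rw [hr]; ring
      have hτR : τ ≤ R := by
        have h2 : |⟪ν, h⟫| ≤ ‖ν‖ * ‖h‖ := abs_real_inner_le_norm _ _
        rw [hνn, one_mul] at h2
        have := le_of_abs_le h2
        linarith
      set c' : E d := q + (R / τ) • h with hc'
      have hc'ball : c' ∈ Metric.ball c ρ := by
        rw [Metric.mem_ball, dist_eq_norm]
        have h1 : c' - c = (q - p) + (R / τ) • P h := by
          have h2 : (R / τ) • h = (c - p) + (R / τ) • P h := by
            rw [hcp]
            conv_lhs => rw [hhdecomp]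
            rw [smul_add, smul_smul, div_mul_cancel₀ _ hτpos.ne']
          rw [hc', h2]; abel
        rw [h1]
        have h3 : ‖(R / τ) • P h‖ < ρ / 2 := by
          rw [norm_smul, Real.norm_of_nonneg (by positivity)]
          rw [div_mul_eq_mul_div, div_lt_iff₀ hτpos]
          have h4 : κ * ‖P h‖ * (ρ / 2) < τ * (ρ / 2) := by
            apply mul_lt_mul_of_pos_right hτκ; positivity
          have h5 : κ * ‖P h‖ * (ρ / 2) = R * ‖P h‖ := by
            rw [hκ]; field_simp
          linarith
        calc ‖((q : E d) - p) + (R / τ) • P h‖ ≤ ‖(q : E d) - p‖ + ‖(R / τ) • P h‖ :=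
              norm_add_le _ _
          _ < ρ / 2 + ρ / 2 := by linarith
          _ = ρ := by ring
      apply hstar q q.2.1 c' hc'ball
      rw [segment_eq_image']
      refine ⟨τ / R, ⟨by positivity, (div_le_one hRpos).2 hτR⟩, ?_⟩
      have h6 : c' - q = (R / τ) • h := by rw [hc']; abel
      have h7 : τ / R * (R / τ) = 1 := by field_simp
      simp only [h6, smul_smul, h7, one_smul, hh]
      abel

end Pool.Agent.Lib.MP_5ff43f_an
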