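import Pool.Agent.Lib.MP_5ff43f_an.Hess

open MeasureTheory Set Filter
open scoped RealInnerProductSpace ENNReal NNReal Topology ContDiff

namespace Pool.Agent.Lib.MP_5ff43f_an

lemma nuc_sq {A : Matrix (Fin 2) (Fin 2) ℝ} (hA : A.IsHermitian) :
    (∑ i, |hA.eigenvalues i|) ^ 2 =
      (A 0 0 + A 1 1) ^ 2 - 2 * (A 0 0 * A 1 1 - A 0 1 ^ 2) + 2 * |A 0 0 * A 1 1 - A 0 1 ^ 2| := by
  have h10 : A 1 0 = A 0 1 := by
    have := hA.apply 0 1
    simpa using this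
  have ht := hA.trace_eq_sum_eigenvalues
  have hd := hA.det_eq_prod_eigenvalues
  rw [Matrix.det_fin_two] at hd
  simp only [Matrix.trace, Matrix.diag_apply, Fin.sum_univ_two, Fin.prod_univ_two,
    RCLike.ofReal_real_eq_id, id] at ht hd
  rw [h10] at hd
  rw [show A 0 0 * A 1 1 - A 0 1 ^ 2 = A 0 0 * A 1 1 - A 0 1 * A 0 1 by ring, hd, ht,
    Fin.sum_univ_two, abs_mul]
  have e0 := sq_abs (hA.eigenvalues 0)
  have e1 := sq_abs (hA.eigenvalues 1)
  nlinarith [e0, e1]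

lemma nuc_nonneg {A : Matrix (Fin 2) (Fin 2) ℝ} (hA : A.IsHermitian) :
    0 ≤ ∑ i, |hA.eigenvalues i| := Finset.sum_nonneg fun _ _ => abs_nonneg _

lemma nuc_ge {A : Matrix (Fin 2) (Fin 2) ℝ} (hA : A.IsHermitian) :
    A 0 0 - A 1 1 ≤ ∑ i, |hA.eigenvalues i| := by
  apply le_of_sq_le_sq _ (nuc_nonneg hA)
  rw [nuc_sq hA]
  have h1 := neg_abs_le (A 0 0 * A 1 1 - A 0 1 ^ 2)
  nlinarith [sq_nonneg (A 0 1)]

lemma nuc_eq {A : Matrix (Fin 2) (Fin 2) ℝ} (hA : A.IsHermitian)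
    (h : ∑ i, |hA.eigenvalues i| = A 0 0 - A 1 1) : A 0 1 = 0 ∧ 0 ≤ A 0 0 ∧ A 1 1 ≤ 0 := by
  have h0 := nuc_nonneg hA
  have h2 := nuc_sq hA
  rw [h] at h2 h0
  have h1 := neg_abs_le (A 0 0 * A 1 1 - A 0 1 ^ 2)
  have h3 := le_abs_self (A 0 0 * A 1 1 - A 0 1 ^ 2)
  have h01 : A 0 1 = 0 := by
    have : A 0 1 ^ 2 ≤ 0 := by nlinarith
    nlinarith [sq_nonneg (A 0 1)]
  have hpr : A 0 0 * A 1 1 ≤ 0 := by
    rw [h01] at h2 h3
    have h4 : |A 0 0 * A 1 1 - 0 ^ 2| = -(A 0 0 * A 1 1) := by nlinarith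
    have := abs_nonneg (A 0 0 * A 1 1 - 0 ^ 2)
    linarith
  refine ⟨h01, ?_, ?_⟩
  · by_contra hneg
    push Not at hneg
    have : A 1 1 < 0 := by linarith
    nlinarith
  · by_contra hneg
    push Not at hneg
    have : 0 < A 0 0 := by linarith
    nlinarith

lemma nuc_le {A : Matrix (Fin 2) (Fin 2) ℝ} (hA : A.IsHermitian) :
    ∑ i, |hA.eigenvalues i| ≤ |A 0 0| + |A 1 1| + 2 * |A 0 1| := by
  apply le_of_sq_le_sq _ (by positivity)
  rw [nuc_sq hA]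
  have e0 := sq_abs (A 0 0)
  have e1 := sq_abs (A 1 1)
  have e2 := sq_abs (A 0 1)
  have h1 : |A 0 0 * A 1 1 - A 0 1 ^ 2| ≤ |A 0 0| * |A 1 1| + |A 0 1| ^ 2 := by
    calc |A 0 0 * A 1 1 - A 0 1 ^ 2| ≤ |A 0 0 * A 1 1| + |A 0 1 ^ 2| := abs_sub _ _
      _ = _ := by rw [abs_mul, abs_pow]
  have p0 := abs_nonneg (A 0 0)
  have p1 := abs_nonneg (A 1 1)
  have p2 := abs_nonneg (A 0 1)
  nlinarith [mul_nonneg p0 p2, mul_nonneg p1 p2, mul_nonneg p0 p1]

lemma nuclear_eq_sqrt (σ : TensorMeasure 2) (x : E 2) :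
    σ.nuclear x = Real.sqrt ((σ.dens x 0 0 + σ.dens x 1 1) ^ 2
      - 2 * (σ.dens x 0 0 * σ.dens x 1 1 - σ.dens x 0 1 ^ 2)
      + 2 * |σ.dens x 0 0 * σ.dens x 1 1 - σ.dens x 0 1 ^ 2|) := by
  rw [← nuc_sq (σ.symm x)]
  exact (Real.sqrt_sq (nuc_nonneg _)).symm

lemma measurable_nuclear (σ : TensorMeasure 2) : Measurable σ.nuclear := by
  have : σ.nuclear = fun x => Real.sqrt ((σ.dens x 0 0 + σ.dens x 1 1) ^ 2
      - 2 * (σ.dens x 0 0 * σ.dens x 1 1 - σ.dens x 0 1 ^ 2)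
      + 2 * |σ.dens x 0 0 * σ.dens x 1 1 - σ.dens x 0 1 ^ 2|) := by
    funext x; exact nuclear_eq_sqrt σ x
  rw [this]
  have h00 := σ.meas 0 0
  have h11 := σ.meas 1 1
  have h01 := σ.meas 0 1
  fun_prop

lemma integrable_nuclear (σ : TensorMeasure 2) : Integrable σ.nuclear σ.base := by
  have hg : Integrable (fun x => |σ.dens x 0 0| + |σ.dens x 1 1| + 2 * |σ.dens x 0 1|) σ.base :=
    ((σ.integrable 0 0).abs.add (σ.integrable 1 1).abs).add ((σ.integrable 0 1).abs.const_mul 2)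
  apply hg.mono' (measurable_nuclear σ).aestronglyMeasurable
  filter_upwards with x
  have h0 : 0 ≤ σ.nuclear x := nuc_nonneg (σ.symm x)
  rw [Real.norm_of_nonneg h0]
  exact nuc_le (σ.symm x)

lemma cost_eq (σ : TensorMeasure 2) : σ.cost = ENNReal.ofReal (∫ x, σ.nuclear x ∂σ.base) := by
  unfold TensorMeasure.cost
  rw [ofReal_integral_eq_lintegral_ofReal (integrable_nuclear σ)]
  filter_upwards with x
  exact nuc_nonneg (σ.symm x)

lemma Admissible.trace_id {σ : TensorMeasure 2} (h : Admissible Om ff σ) :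
    ∫ x, (σ.dens x 0 0 - σ.dens x 1 1) ∂σ.base = 4 := by
  have hsq : ContDiff ℝ ∞ (fun t : ℝ => t ^ 2 / 2) := by fun_prop
  have h1 : ContDiff ℝ ∞ (fun _ : ℝ => (1 : ℝ)) := contDiff_const
  have d1 : deriv (fun t : ℝ => t ^ 2 / 2) = fun t => t := by
    funext t
    have : HasDerivAt (fun t : ℝ => t ^ 2 / 2) (2 * t ^ (2 - 1) / 2) t := by
      simpa using (hasDerivAt_pow 2 t).div_const 2
    rw [this.deriv]; simp
  have d2 : deriv (deriv (fun t : ℝ => t ^ 2 / 2)) = fun _ => 1 := by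
    rw [d1]; funext t; exact (hasDerivAt_id t).deriv
  have e1 := h.prod hsq h1
  have e2 := h.prod h1 hsq
  have d3 : deriv (fun t : ℝ => t) = fun _ => 1 := by
    funext t; exact (hasDerivAt_id t).deriv
  simp only [d1, d3, deriv_const', mul_one, one_mul, mul_zero, zero_mul, add_zero,
    zero_add] at e1 e2
  rw [integral_sub (σ.integrable 0 0) (σ.integrable 1 1), e1, e2]
  norm_num

lemma Admissible.four_le {σ : TensorMeasure 2} (h : Admissible Om ff σ) : 4 ≤ σ.cost := by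
  rw [cost_eq]
  have h1 : (4 : ℝ) ≤ ∫ x, σ.nuclear x ∂σ.base := by
    rw [← h.trace_id]
    apply integral_mono ((σ.integrable 0 0).sub (σ.integrable 1 1)) (integrable_nuclear σ)
    intro x
    exact nuc_ge (σ.symm x)
  calc (4 : ℝ≥0∞) = ENNReal.ofReal 4 := by simp
    _ ≤ _ := ENNReal.ofReal_le_ofReal h1

lemma Admissible.aligned {σ : TensorMeasure 2} (h : Admissible Om ff σ) (hc : σ.cost ≤ 4) :
    ∀ᵐ x ∂σ.base, σ.dens x 0 1 = 0 ∧ 0 ≤ σ.dens x 0 0 ∧ σ.dens x 1 1 ≤ 0 := by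
  rw [cost_eq] at hc
  have h4 : ∫ x, σ.nuclear x ∂σ.base ≤ 4 := by
    have : ENNReal.ofReal (∫ x, σ.nuclear x ∂σ.base) ≤ ENNReal.ofReal 4 := by simpa using hc
    exact (ENNReal.ofReal_le_ofReal_iff (by norm_num)).1 this
  have hd : Integrable (fun x => σ.dens x 0 0 - σ.dens x 1 1) σ.base :=
    (σ.integrable 0 0).sub (σ.integrable 1 1)
  have hi : Integrable (fun x => σ.nuclear x - (σ.dens x 0 0 - σ.dens x 1 1)) σ.base :=
    (integrable_nuclear σ).sub hd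
  have h0 : ∫ x, (σ.nuclear x - (σ.dens x 0 0 - σ.dens x 1 1)) ∂σ.base = 0 := by
    apply le_antisymm
    · rw [integral_sub (integrable_nuclear σ) hd, h.trace_id]
      linarith
    · apply integral_nonneg
      intro x
      have := nuc_ge (σ.symm x)
      simp only [Pi.zero_apply]
      change σ.dens x 0 0 - σ.dens x 1 1 ≤ σ.nuclear x at this
      linarith
  have h5 := (integral_eq_zero_iff_of_nonneg (μ := σ.base)
    (f := fun x => σ.nuclear x - (σ.dens x 0 0 - σ.dens x 1 1)) (by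
      intro x
      have := nuc_ge (σ.symm x)
      simp only [Pi.zero_apply]
      change σ.dens x 0 0 - σ.dens x 1 1 ≤ σ.nuclear x at this
      linarith) hi).1 h0
  filter_upwards [h5] with x hx
  apply nuc_eq (σ.symm x)
  simp only [Pi.zero_apply] at hx
  change σ.nuclear x = _
  linarith

end Pool.Agent.Lib.MP_5ff43f_an
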