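import Pool.Agent.Lib.MP_5ff43f_an.Nuc

open MeasureTheory Set Filter
open scoped RealInnerProductSpace ENNReal NNReal Topology ContDiff

namespace Pool.Agent.Lib.MP_5ff43f_an

/-- primitive vanishing at `c` -/
noncomputable def prim (c : ℝ) (h : ℝ → ℝ) (t : ℝ) : ℝ := ∫ u in c..t, h u

lemma prim_hasDeriv {c : ℝ} {h : ℝ → ℝ} (hh : Continuous h) (t : ℝ) :
    HasDerivAt (prim c h) (h t) t :=
  intervalIntegral.integral_hasDerivAt_right (hh.intervalIntegrable _ _)
    (hh.stronglyMeasurableAtFilter _ _) hh.continuousAt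

lemma prim_deriv {c : ℝ} {h : ℝ → ℝ} (hh : Continuous h) : deriv (prim c h) = h := by
  funext t
  exact (prim_hasDeriv hh t).deriv

lemma prim_diff {c : ℝ} {h : ℝ → ℝ} (hh : Continuous h) : Differentiable ℝ (prim c h) :=
  fun t => (prim_hasDeriv hh t).differentiableAt

lemma prim_smooth {c : ℝ} {h : ℝ → ℝ} (hh : ContDiff ℝ ∞ h) : ContDiff ℝ ∞ (prim c h) := by
  rw [contDiff_infty_iff_deriv]
  refine ⟨prim_diff hh.continuous, ?_⟩
  rw [prim_deriv hh.continuous]
  exact hh

lemma isCompact_clOm : IsCompact (closure Om) := isBounded_Om.isCompact_closure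

lemma integrable_mul_dens {σ : TensorMeasure 2} (hs : σ.ConcentratedOn (closure Om))
    {F : E 2 → ℝ} (hF : Measurable F) {C : ℝ} (hb : ∀ x ∈ closure Om, |F x| ≤ C) (i j : Fin 2) :
    Integrable (fun x => F x * σ.dens x i j) σ.base := by
  have h1 : Integrable (fun x => C * σ.dens x i j) σ.base := (σ.integrable i j).const_mul C
  have hm : Measurable (fun x => F x * σ.dens x i j) := hF.mul (σ.meas i j)
  apply h1.mono hm.aestronglyMeasurable
  filter_upwards [hs] with x hx
  by_cases hxc : x ∈ closure Om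
  · rw [norm_mul, norm_mul, Real.norm_eq_abs, Real.norm_eq_abs, Real.norm_eq_abs]
    have h2 := hb x hxc
    have h3 : |F x| ≤ |C| := h2.trans (le_abs_self C)
    exact mul_le_mul_of_nonneg_right h3 (abs_nonneg _)
  · have h4 : σ.dens x i j = 0 := by rw [hx hxc]; rfl
    rw [h4]; simp

lemma integrable_cont_dens {σ : TensorMeasure 2} (hs : σ.ConcentratedOn (closure Om))
    {F : E 2 → ℝ} (hF : Continuous F) (i j : Fin 2) :
    Integrable (fun x => F x * σ.dens x i j) σ.base := by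
  obtain ⟨C, hC⟩ := isCompact_clOm.exists_bound_of_continuousOn hF.continuousOn
  exact integrable_mul_dens hs hF.measurable (fun x hx => by simpa using hC x hx) i j

/-- A solution-like measure: admissible and aligned. -/
structure Good (σ : TensorMeasure 2) : Prop where
  adm : Admissible Om ff σ
  al : ∀ᵐ x ∂σ.base, σ.dens x 0 1 = 0 ∧ 0 ≤ σ.dens x 0 0 ∧ σ.dens x 1 1 ≤ 0

lemma Good.prod {σ : TensorMeasure 2} (h : Good σ) {a b : ℝ → ℝ}
    (ha : ContDiff ℝ ∞ a) (hb : ContDiff ℝ ∞ b) :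
    ∫ x, deriv (deriv a) (x 0) * b (x 1) * σ.dens x 0 0 ∂σ.base +
      ∫ x, a (x 0) * deriv (deriv b) (x 1) * σ.dens x 1 1 ∂σ.base =
      a (-1) * b 0 + a 2 * b 1 - (a 0 * b (-1) + a 1 * b 2) := by
  rw [← h.adm.prod ha hb]
  have h0 := coord_cont 0
  have h1 := coord_cont 1
  have ca := ha.continuous
  have cb := hb.continuous
  have ca' := (smooth_deriv (smooth_deriv ha)).continuous
  have cb' := (smooth_deriv (smooth_deriv hb)).continuous
  have j1 : Integrable (fun x => deriv (deriv a) (x 0) * b (x 1) * σ.dens x 0 0) σ.base :=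
    integrable_cont_dens h.adm.supp ((ca'.comp h0).mul (cb.comp h1)) 0 0
  have j2 : Integrable (fun x => a (x 0) * deriv (deriv b) (x 1) * σ.dens x 1 1) σ.base :=
    integrable_cont_dens h.adm.supp ((ca.comp h0).mul (cb'.comp h1)) 1 1
  rw [← integral_add j1 j2]
  apply integral_congr_ae
  filter_upwards [h.al] with x hx
  have h10 : σ.dens x 1 0 = σ.dens x 0 1 := by
    have := (σ.symm x).apply 0 1
    simpa using this
  rw [h10, hx.1]
  simp

lemma deriv_id' : deriv (fun t : ℝ => t) = fun _ => 1 := by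
  funext t; exact (hasDerivAt_id t).deriv

lemma deriv2_one : deriv (deriv (fun _ : ℝ => (1 : ℝ))) = fun _ => 0 := by simp

lemma deriv2_id : deriv (deriv (fun t : ℝ => t)) = fun _ => 0 := by
  rw [deriv_id']; simp

/-- facts on the double primitive of a function supported in `[0,1]`. -/
lemma prim_facts {η : ℝ → ℝ} (hη : ContDiff ℝ ∞ η) (h0 : ∀ t ≤ 0, η t = 0)
    (h1 : ∀ t, 1 ≤ t → η t = 0) :
    prim 0 (prim 0 η) 0 = 0 ∧ prim 0 (prim 0 η) (-1) = 0 ∧
    prim 0 (prim 0 η) 2 = prim 0 (prim 0 η) 1 + ∫ u in (0 : ℝ)..1, η u := by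
  have p0 : ∀ t ≤ 0, prim 0 η t = 0 := by
    intro t ht
    unfold prim
    apply intervalIntegral.integral_zero_ae
    filter_upwards with u hu
    rw [uIoc_of_ge ht] at hu
    exact h0 u hu.2
  have hc := (prim_smooth (c := 0) hη).continuous
  refine ⟨by simp [prim], ?_, ?_⟩
  · unfold prim
    apply intervalIntegral.integral_zero_ae
    filter_upwards with u hu
    rw [uIoc_of_ge (by norm_num)] at hu
    exact p0 u hu.2
  · have p1 : ∀ t, 1 ≤ t → prim 0 η t = ∫ u in (0 : ℝ)..1, η u := by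
      intro t ht
      unfold prim
      rw [← intervalIntegral.integral_add_adjacent_intervals
        (hη.continuous.intervalIntegrable 0 1) (hη.continuous.intervalIntegrable 1 t)]
      have : ∫ u in (1 : ℝ)..t, η u = 0 := by
        apply intervalIntegral.integral_zero_ae
        filter_upwards with u hu
        rw [uIoc_of_le ht] at hu
        exact h1 u hu.1.le
      rw [this, add_zero]
    have e1 : prim 0 (prim 0 η) 2 = prim 0 (prim 0 η) 1 + ∫ u in (1 : ℝ)..2, prim 0 η u := by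
      rw [prim, prim, intervalIntegral.integral_add_adjacent_intervals
        (hc.intervalIntegrable 0 1) (hc.intervalIntegrable 1 2)]
    rw [e1]
    congr 1
    have : ∫ u in (1 : ℝ)..2, prim 0 η u = ∫ u in (1 : ℝ)..2, (∫ u in (0 : ℝ)..1, η u) := by
      apply intervalIntegral.integral_congr
      intro u hu
      rw [uIcc_of_le (by norm_num)] at hu
      exact p1 u hu.1
    rw [this, intervalIntegral.integral_const]
    norm_num

lemma Good.marg0 {σ : TensorMeasure 2} (h : Good σ) {η : ℝ → ℝ} (hη : ContDiff ℝ ∞ η)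
    (h0 : ∀ t ≤ 0, η t = 0) (h1 : ∀ t, 1 ≤ t → η t = 0) :
    ∫ x, η (x 0) * σ.dens x 0 0 ∂σ.base = ∫ u in (0 : ℝ)..1, η u := by
  obtain ⟨f0, fm, f2⟩ := prim_facts hη h0 h1
  have hs := prim_smooth (c := 0) (prim_smooth (c := 0) hη)
  have := h.prod hs (contDiff_const (c := (1 : ℝ)))
  rw [prim_deriv (prim_smooth (c := 0) hη).continuous, prim_deriv hη.continuous] at this
  simp only [f0, fm, f2, deriv_const', mul_zero, zero_mul, integral_zero, mul_one, add_zero,
    zero_add] at this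
  rw [this]; ring

lemma Good.marg1 {σ : TensorMeasure 2} (h : Good σ) {η : ℝ → ℝ} (hη : ContDiff ℝ ∞ η)
    (h0 : ∀ t ≤ 0, η t = 0) (h1 : ∀ t, 1 ≤ t → η t = 0) :
    ∫ x, η (x 1) * σ.dens x 1 1 ∂σ.base = - ∫ u in (0 : ℝ)..1, η u := by
  obtain ⟨f0, fm, f2⟩ := prim_facts hη h0 h1
  have hs := prim_smooth (c := 0) (prim_smooth (c := 0) hη)
  have := h.prod (contDiff_const (c := (1 : ℝ))) hs
  rw [prim_deriv (prim_smooth (c := 0) hη).continuous, prim_deriv hη.continuous] at this
  simp only [f0, fm, f2, deriv_const', mul_zero, zero_mul, integral_zero, one_mul, add_zero,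
    zero_add] at this
  rw [this]; ring

lemma contDiff_id' : ContDiff ℝ ∞ (fun t : ℝ => t) := contDiff_id

lemma Good.mean0 {σ : TensorMeasure 2} (h : Good σ) {η : ℝ → ℝ} (hη : ContDiff ℝ ∞ η)
    (h0 : ∀ t ≤ 0, η t = 0) (h1 : ∀ t, 1 ≤ t → η t = 0) :
    ∫ x, η (x 0) * (x 1 - x 0) * σ.dens x 0 0 ∂σ.base = 0 := by
  obtain ⟨f0, fm, f2⟩ := prim_facts hη h0 h1
  have hs := prim_smooth (c := 0) (prim_smooth (c := 0) hη)
  have e1 := h.prod hs contDiff_id'
  rw [prim_deriv (prim_smooth (c := 0) hη).continuous, prim_deriv hη.continuous] at e1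
  simp only [f0, fm, f2, deriv2_id, mul_zero, zero_mul, integral_zero, mul_one, add_zero,
    zero_add] at e1
  have hη' : ContDiff ℝ ∞ (fun t => η t * t) := hη.mul contDiff_id'
  have e2 := h.marg0 hη' (fun t ht => by rw [h0 t ht, zero_mul])
    (fun t ht => by rw [h1 t ht, zero_mul])
  have c0 := coord_cont 0
  have c1 := coord_cont 1
  have i1 : Integrable (fun x => η (x 0) * x 1 * σ.dens x 0 0) σ.base :=
    integrable_cont_dens h.adm.supp ((hη.continuous.comp c0).mul c1) 0 0
  have i2 : Integrable (fun x => η (x 0) * x 0 * σ.dens x 0 0) σ.base :=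
    integrable_cont_dens h.adm.supp ((hη.continuous.comp c0).mul c0) 0 0
  have e3 : ∫ x, η (x 0) * (x 1 - x 0) * σ.dens x 0 0 ∂σ.base =
      ∫ x, η (x 0) * x 1 * σ.dens x 0 0 ∂σ.base -
      ∫ x, η (x 0) * x 0 * σ.dens x 0 0 ∂σ.base := by
    rw [← integral_sub i1 i2]
    apply integral_congr_ae
    filter_upwards with x
    ring
  rw [e3, e1, e2]
  -- integration by parts
  have hp : ∫ u in (0 : ℝ)..1, η u * u =
      (∫ u in (0 : ℝ)..1, η u) - prim 0 (prim 0 η) 1 := by
    have hd1 : ∀ u ∈ uIcc (0 : ℝ) 1, HasDerivAt (prim 0 η) (η u) u :=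
      fun u _ => prim_hasDeriv hη.continuous u
    have hd2 : ∀ u ∈ uIcc (0 : ℝ) 1, HasDerivAt (fun u : ℝ => u) 1 u := fun u _ => hasDerivAt_id u
    have := intervalIntegral.integral_mul_deriv_eq_deriv_mul hd2 hd1
      (continuous_const.intervalIntegrable _ _) (hη.continuous.intervalIntegrable _ _)
    have e4 : ∫ u in (0 : ℝ)..1, η u * u = ∫ u in (0 : ℝ)..1, u * η u := by
      congr 1; funext u; ring
    rw [e4, this]
    simp [prim]
  have hm1 : prim 0 (prim 0 η) (-1) * 0 = 0 := by ring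
  rw [hp]
  ring_nf

lemma Good.mean1 {σ : TensorMeasure 2} (h : Good σ) {η : ℝ → ℝ} (hη : ContDiff ℝ ∞ η)
    (h0 : ∀ t ≤ 0, η t = 0) (h1 : ∀ t, 1 ≤ t → η t = 0) :
    ∫ x, η (x 1) * (x 0 - x 1) * σ.dens x 1 1 ∂σ.base = 0 := by
  obtain ⟨f0, fm, f2⟩ := prim_facts hη h0 h1
  have hs := prim_smooth (c := 0) (prim_smooth (c := 0) hη)
  have e1 := h.prod contDiff_id' hs
  rw [prim_deriv (prim_smooth (c := 0) hη).continuous, prim_deriv hη.continuous] at e1
  simp only [f0, fm, f2, deriv2_id, mul_zero, zero_mul, integral_zero, one_mul, add_zero,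
    zero_add] at e1
  have hη' : ContDiff ℝ ∞ (fun t => η t * t) := hη.mul contDiff_id'
  have e2 := h.marg1 hη' (fun t ht => by rw [h0 t ht, zero_mul])
    (fun t ht => by rw [h1 t ht, zero_mul])
  have c0 := coord_cont 0
  have c1 := coord_cont 1
  have i1 : Integrable (fun x => x 0 * η (x 1) * σ.dens x 1 1) σ.base :=
    integrable_cont_dens h.adm.supp (c0.mul (hη.continuous.comp c1)) 1 1
  have i2 : Integrable (fun x => η (x 1) * x 1 * σ.dens x 1 1) σ.base :=
    integrable_cont_dens h.adm.supp ((hη.continuous.comp c1).mul c1) 1 1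
  have e3 : ∫ x, η (x 1) * (x 0 - x 1) * σ.dens x 1 1 ∂σ.base =
      ∫ x, x 0 * η (x 1) * σ.dens x 1 1 ∂σ.base -
      ∫ x, η (x 1) * x 1 * σ.dens x 1 1 ∂σ.base := by
    rw [← integral_sub i1 i2]
    apply integral_congr_ae
    filter_upwards with x
    ring
  rw [e3, e1, e2]
  -- integration by parts
  have hp : ∫ u in (0 : ℝ)..1, η u * u =
      (∫ u in (0 : ℝ)..1, η u) - prim 0 (prim 0 η) 1 := by
    have hd1 : ∀ u ∈ uIcc (0 : ℝ) 1, HasDerivAt (prim 0 η) (η u) u :=
      fun u _ => prim_hasDeriv hη.continuous u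
    have hd2 : ∀ u ∈ uIcc (0 : ℝ) 1, HasDerivAt (fun u : ℝ => u) 1 u := fun u _ => hasDerivAt_id u
    have := intervalIntegral.integral_mul_deriv_eq_deriv_mul hd2 hd1
      (continuous_const.intervalIntegrable _ _) (hη.continuous.intervalIntegrable _ _)
    have e4 : ∫ u in (0 : ℝ)..1, η u * u = ∫ u in (0 : ℝ)..1, u * η u := by
      congr 1; funext u; ring
    rw [e4, this]
    simp [prim]
  rw [hp]
  ring_nf

end Pool.Agent.Lib.MP_5ff43f_an
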