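import Pool.Agent.Lib.MP_5ff43f_an.Prim

open MeasureTheory Set Filter
open scoped RealInnerProductSpace ENNReal NNReal Topology ContDiff

namespace Pool.Agent.Lib.MP_5ff43f_an

lemma glue_le_one (x : ℝ) : expNegInvGlue x ≤ 1 := by
  unfold expNegInvGlue
  split_ifs with h
  · norm_num
  · push Not at h
    apply Real.exp_le_one_iff.2
    have : 0 < x⁻¹ := inv_pos.2 h
    linarith

/-- the convex test function in the first variable -/
lemma exists_P (ξ : ℝ) (hξ : 0 < ξ) : ∃ P e : ℝ → ℝ, ContDiff ℝ ∞ P ∧ deriv (deriv P) = e ∧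
    Continuous e ∧ (∀ s, 0 ≤ e s) ∧ (∀ s, ξ < s → 0 < e s) ∧ (∀ s ≤ ξ, P s = 0) ∧
    (∀ s, ξ ≤ s → s ≤ 4 → P s ≤ 4 * (s - ξ)) := by
  set e : ℝ → ℝ := fun u => expNegInvGlue (u - ξ) with he
  have hes : ContDiff ℝ ∞ e := expNegInvGlue.contDiff.comp (contDiff_id.sub contDiff_const)
  have hes1 := prim_smooth (c := 0) hes
  have e0 : ∀ u ≤ ξ, e u = 0 := fun u hu => expNegInvGlue.zero_of_nonpos (by linarith)
  have p0 : ∀ t ≤ ξ, prim 0 e t = 0 := by
    intro t ht
    unfold prim
    apply intervalIntegral.integral_zero_ae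
    filter_upwards with u hu
    apply e0
    rcases le_total 0 t with h | h
    · rw [uIoc_of_le h] at hu; linarith [hu.2]
    · rw [uIoc_of_ge h] at hu; linarith [hu.2]
  have pp0 : ∀ t ≤ ξ, prim 0 (prim 0 e) t = 0 := by
    intro t ht
    rw [prim]
    apply intervalIntegral.integral_zero_ae
    filter_upwards with u hu
    apply p0
    rcases le_total 0 t with h | h
    · rw [uIoc_of_le h] at hu; linarith [hu.2]
    · rw [uIoc_of_ge h] at hu; linarith [hu.2]
  have ple : ∀ u, 0 ≤ u → prim 0 e u ≤ u := by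
    intro u hu
    have h1 : ∫ v in (0 : ℝ)..u, e v ≤ ∫ v in (0 : ℝ)..u, (1 : ℝ) := by
      apply intervalIntegral.integral_mono_on hu (hes.continuous.intervalIntegrable _ _)
        (continuous_const.intervalIntegrable _ _)
      intro v _
      exact glue_le_one _
    simpa [prim] using h1
  refine ⟨prim 0 (prim 0 e), e, prim_smooth hes1, ?_, hes.continuous,
    fun s => expNegInvGlue.nonneg _, fun s hs => expNegInvGlue.pos_of_pos (by linarith), pp0, ?_⟩
  · rw [prim_deriv hes1.continuous, prim_deriv hes.continuous]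
  · intro s hs hs4
    have h1 : prim 0 (prim 0 e) s = prim 0 (prim 0 e) ξ + ∫ u in ξ..s, prim 0 e u := by
      rw [prim, prim, intervalIntegral.integral_add_adjacent_intervals
        (hes1.continuous.intervalIntegrable 0 ξ) (hes1.continuous.intervalIntegrable ξ s)]
    rw [h1, pp0 ξ le_rfl, zero_add]
    have h2 : ∫ u in ξ..s, prim 0 e u ≤ ∫ u in ξ..s, (4 : ℝ) := by
      apply intervalIntegral.integral_mono_on hs (hes1.continuous.intervalIntegrable _ _)
        (continuous_const.intervalIntegrable _ _)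
      intro v hv
      have := ple v (by linarith [hv.1])
      linarith [hv.2]
    rw [intervalIntegral.integral_const, smul_eq_mul] at h2
    linarith

/-- the convex test function in the second variable -/
lemma exists_N (ξ ε : ℝ) (hε : 0 < ε) (hεξ : ε < ξ) (hξ1 : ξ ≤ 1) :
    ∃ N η : ℝ → ℝ, ContDiff ℝ ∞ N ∧ deriv (deriv N) = η ∧ ContDiff ℝ ∞ η ∧
    (∀ t, 0 ≤ η t) ∧ (∀ t, η t ≠ 0 → ξ - ε < t ∧ t < ξ) ∧ (∫ u in (0 : ℝ)..1, η u) = 1 ∧
    (∀ t, ξ ≤ t → N t = 0) ∧ (∀ t ≤ ξ, 0 ≤ N t) ∧ (∀ t ≤ ξ - ε, ξ - ε - t ≤ N t) := by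
  let B : ContDiffBump (ξ - ε / 2) := ⟨ε / 4, ε / 2, by positivity, by linarith⟩
  set η : ℝ → ℝ := B.normed volume with hη
  have hηs : ContDiff ℝ ∞ η := B.contDiff_normed
  have hηn : ∀ t, 0 ≤ η t := B.nonneg_normed
  have hsupp : Function.support η = Ioo (ξ - ε) ξ := by
    rw [hη, B.support_normed_eq, Real.ball_eq_Ioo]
    change Ioo (ξ - ε / 2 - ε / 2) (ξ - ε / 2 + ε / 2) = _
    congr 1 <;> ring
  have hη0 : ∀ t, η t ≠ 0 → ξ - ε < t ∧ t < ξ := by
    intro t ht
    have : t ∈ Function.support η := ht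
    rwa [hsupp] at this
  have hint : ∫ x, η x = 1 := B.integral_normed
  have hcc := hηs.continuous
  have hfull : ∀ t, ξ ≤ t → prim 0 η t = 1 := by
    intro t ht
    unfold prim
    rw [intervalIntegral.integral_eq_integral_of_support_subset, hint]
    rw [hsupp]
    intro u hu
    exact ⟨by linarith [hu.1], by linarith [hu.2]⟩
  have hzero : ∀ t ≤ ξ - ε, prim 0 η t = 0 := by
    intro t ht
    unfold prim
    apply intervalIntegral.integral_zero_ae
    filter_upwards with u hu
    by_contra hne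
    have h1 := hη0 u hne
    rcases le_total 0 t with h | h
    · rw [uIoc_of_le h] at hu; linarith [hu.2]
    · rw [uIoc_of_ge h] at hu; linarith [hu.2]
  have hle : ∀ t ≤ ξ, prim 0 η t ≤ 1 := by
    intro t ht
    rw [← hfull ξ le_rfl]
    have h1 : prim 0 η ξ = prim 0 η t + ∫ u in t..ξ, η u := by
      rw [prim, prim, intervalIntegral.integral_add_adjacent_intervals
        (hcc.intervalIntegrable 0 t) (hcc.intervalIntegrable t ξ)]
    have h2 : 0 ≤ ∫ u in t..ξ, η u := intervalIntegral.integral_nonneg ht fun u _ => hηn u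
    linarith
  set m : ℝ → ℝ := fun u => prim 0 η u - 1 with hm
  have hms : ContDiff ℝ ∞ m := (prim_smooth hηs).sub contDiff_const
  have hmc := hms.continuous
  have hdm : deriv m = η := by
    rw [hm]
    funext u
    have : HasDerivAt (fun u => prim 0 η u - 1) (η u) u := (prim_hasDeriv hcc u).sub_const 1
    exact this.deriv
  have hN : ∀ t, prim ξ m t = ∫ u in t..ξ, (1 - prim 0 η u) := by
    intro t
    unfold prim
    rw [intervalIntegral.integral_symm, ← intervalIntegral.integral_neg]
    congr 1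
    funext u
    simp only [hm, prim]
    ring
  have hcont1 : Continuous fun u => 1 - prim 0 η u := by
    exact continuous_const.sub (prim_smooth hηs).continuous
  have hNnn : ∀ t ≤ ξ, 0 ≤ prim ξ m t := by
    intro t ht
    rw [hN]
    apply intervalIntegral.integral_nonneg ht
    intro u hu
    linarith [hle u hu.2]
  refine ⟨prim ξ m, η, prim_smooth hms, ?_, hηs, hηn, hη0, ?_, ?_, hNnn, ?_⟩
  · rw [prim_deriv hmc, hdm]
  · exact hfull 1 hξ1
  · intro t ht
    unfold prim
    apply intervalIntegral.integral_zero_ae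
    filter_upwards with u hu
    rw [uIoc_of_le ht] at hu
    simp only [hm]
    rw [hfull u hu.1.le]; ring
  · intro t ht
    rw [hN, ← intervalIntegral.integral_add_adjacent_intervals
      (hcont1.intervalIntegrable t (ξ - ε)) (hcont1.intervalIntegrable (ξ - ε) ξ)]
    have h1 : ∫ u in t..(ξ - ε), (1 - prim 0 η u) = ξ - ε - t := by
      have : ∫ u in t..(ξ - ε), (1 - prim 0 η u) = ∫ u in t..(ξ - ε), (1 : ℝ) := by
        apply intervalIntegral.integral_congr
        intro u hu
        rw [uIcc_of_le ht] at hu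
        simp only
        rw [hzero u hu.2]; ring
      rw [this]; simp
    have h2 : 0 ≤ ∫ u in (ξ - ε)..ξ, (1 - prim 0 η u) := by
      apply intervalIntegral.integral_nonneg (by linarith)
      intro u hu
      linarith [hle u hu.2]
    linarith

lemma Good.quad_aux {σ : TensorMeasure 2} (h : Good σ) {ξ : ℝ} (hξ : 0 < ξ) (hξ1 : ξ ≤ 1)
    (hK : ξ ∈ KK) {δ : ℝ} (hδ : 0 < δ) :
    ∀ᵐ x ∂σ.base, ξ < x 0 → x 1 < ξ - δ → σ.dens x 0 0 = 0 := by
  obtain ⟨P, e, hP, hPe, hec, hen, hep, hP0, hPle⟩ := exists_P ξ hξ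
  have c0 := coord_cont 0
  have c1 := coord_cont 1
  set G : E 2 → ℝ := fun x => ({x : E 2 | x 1 < ξ - δ}.indicator (fun x => e (x 0)) x) *
    σ.dens x 0 0 with hG
  have hmS : MeasurableSet {x : E 2 | x 1 < ξ - δ} := (isOpen_lt c1 continuous_const).measurableSet
  have hGint : Integrable G σ.base := by
    obtain ⟨C, hC⟩ := isCompact_clOm.exists_bound_of_continuousOn (hec.comp c0).continuousOn
    apply integrable_mul_dens h.adm.supp (C := C)
    · exact ((hec.comp c0).measurable).indicator hmS
    · intro x hx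
      have h1 := hC x hx
      by_cases hxS : x ∈ {x : E 2 | x 1 < ξ - δ}
      · rw [indicator_of_mem hxS]; simpa using h1
      · rw [indicator_of_notMem hxS]
        simp only [abs_zero]
        exact (norm_nonneg _).trans h1
  have hGnn : 0 ≤ᵐ[σ.base] G := by
    filter_upwards [h.al] with x hx
    simp only [hG, Pi.zero_apply]
    apply mul_nonneg _ hx.2.1
    apply indicator_nonneg
    intro y _
    exact hen _
  have hmain : ∀ ε, 0 < ε → ε < ξ → ε ≤ δ / 2 → (δ / 2) * ∫ x, G x ∂σ.base ≤ 2 * ε := by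
    intro ε hε hεξ hεδ
    obtain ⟨N, η, hN, hNη, hη, hηn, hηs, hη1, hN0, hNn, hNl⟩ := exists_N ξ ε hε hεξ hξ1
    have hp := h.prod hP hN
    rw [hPe, hNη, hP0 (-1) (by linarith), hP0 0 (by linarith), hN0 1 hξ1, hN0 2 (by linarith)] at hp
    simp only [zero_mul, mul_zero, add_zero, sub_zero] at hp
    have hNc := hN.continuous
    have hPc := hP.continuous
    have hηc := hη.continuous
    have j1 : Integrable (fun x => e (x 0) * N (x 1) * σ.dens x 0 0) σ.base :=
      integrable_cont_dens h.adm.supp ((hec.comp c0).mul (hNc.comp c1)) 0 0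
    have j2 : Integrable (fun x => P (x 0) * η (x 1) * σ.dens x 1 1) σ.base :=
      integrable_cont_dens h.adm.supp ((hPc.comp c0).mul (hηc.comp c1)) 1 1
    have j3 : Integrable (fun x => η (x 1) * (x 0 - x 1) * σ.dens x 1 1) σ.base :=
      integrable_cont_dens h.adm.supp ((hηc.comp c1).mul (c0.sub c1)) 1 1
    have j4 : Integrable (fun x => η (x 1) * σ.dens x 1 1) σ.base :=
      integrable_cont_dens h.adm.supp (hηc.comp c1) 1 1
    have hη00 : ∀ t ≤ 0, η t = 0 := by
      intro t ht
      by_contra hne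
      have := hηs t hne
      linarith
    have hη01 : ∀ t, 1 ≤ t → η t = 0 := by
      intro t ht
      by_contra hne
      have := hηs t hne
      linarith
    have m0 := h.marg1 hη hη00 hη01
    have m1 := h.mean1 hη hη00 hη01
    rw [hη1] at m0
    -- lower bound on the first integral
    have hlow : (δ / 2) * ∫ x, G x ∂σ.base ≤ ∫ x, e (x 0) * N (x 1) * σ.dens x 0 0 ∂σ.base := by
      rw [← integral_const_mul]
      apply integral_mono_ae (hGint.const_mul _) j1
      filter_upwards [h.al, h.adm.supp] with x hx hxs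
      simp only [hG]
      by_cases hxS : x ∈ {x : E 2 | x 1 < ξ - δ}
      · rw [indicator_of_mem hxS]
        have hxS' : x 1 < ξ - δ := hxS
        have h1 : δ / 2 ≤ N (x 1) := by
          have := hNl (x 1) (by linarith)
          linarith
        have h2 : 0 ≤ e (x 0) * σ.dens x 0 0 := mul_nonneg (hen _) hx.2.1
        nlinarith
      · rw [indicator_of_notMem hxS]
        rw [zero_mul, mul_zero]
        have h1 : 0 ≤ N (x 1) := by
          rcases le_total (x 1) ξ with h3 | h3
          · exact hNn _ h3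
          · rw [hN0 _ h3]
        exact mul_nonneg (mul_nonneg (hen _) h1) hx.2.1
    -- upper bound for the second
    have hup : ∫ x, P (x 0) * η (x 1) * σ.dens x 1 1 ∂σ.base ≥
        4 * (∫ x, η (x 1) * (x 0 - x 1) * σ.dens x 1 1 ∂σ.base) +
        4 * (ε / 2) * ∫ x, η (x 1) * σ.dens x 1 1 ∂σ.base := by
      have j5 : Integrable (fun x => 4 * (η (x 1) * (x 0 - x 1) * σ.dens x 1 1) +
          4 * (ε / 2) * (η (x 1) * σ.dens x 1 1)) σ.base :=
        (j3.const_mul _).add (j4.const_mul _)
      rw [← integral_const_mul, ← integral_const_mul, ← integral_add (j3.const_mul _)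
        (j4.const_mul _)]
      apply integral_mono_ae j5 j2
      filter_upwards [h.al, h.adm.supp] with x hx hxs
      by_cases hxc : x ∈ closure Om
      · by_cases hηx : η (x 1) = 0
        · simp only [hηx]; simp
        · have h1 := hηs _ hηx
          have h2 := closure_Om_sub hxc
          have h3 : gg (x 1) ≤ x 0 := by
            rcases h2.1 with h4 | h4
            · linarith
            · exact h4
          have h5 : x 1 - x 0 ≤ ε / 2 := by
            unfold gg at h3
            rw [min_eq_left (by linarith)] at h3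
            have h6 := dK_le (t := x 1) hK
            rw [abs_of_nonpos (by linarith)] at h6
            linarith
          have h7 : P (x 0) ≤ 4 * (x 0 - x 1 + ε / 2) := by
            rcases le_total (x 0) ξ with h8 | h8
            · rw [hP0 _ h8]; linarith
            · have := hPle _ h8 (le_of_abs_le h2.2.1)
              linarith
          have h9 : 0 ≤ -σ.dens x 1 1 := by linarith [hx.2.2]
          have h10 : P (x 0) * (η (x 1) * (-σ.dens x 1 1)) ≤
              4 * (x 0 - x 1 + ε / 2) * (η (x 1) * (-σ.dens x 1 1)) :=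
            mul_le_mul_of_nonneg_right h7 (mul_nonneg (hηn _) h9)
          linarith
      · have h4 : σ.dens x 1 1 = 0 := by rw [hxs hxc]; rfl
        simp only [h4]; simp
    rw [m0, m1] at hup
    linarith
  have hI : ∫ x, G x ∂σ.base ≤ 0 := by
    by_contra hpos
    push Not at hpos
    set I := ∫ x, G x ∂σ.base with hIdef
    set ε := min (min (ξ / 2) (δ / 2)) (I * δ / 8) with hε
    have hεpos : 0 < ε := by
      rw [hε]
      apply lt_min (lt_min (by linarith) (by linarith))
      positivity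
    have h1 : ε ≤ ξ / 2 := (min_le_left _ _).trans (min_le_left _ _)
    have h2 : ε ≤ δ / 2 := (min_le_left _ _).trans (min_le_right _ _)
    have h3 : ε ≤ I * δ / 8 := min_le_right _ _
    have := hmain ε hεpos (by linarith) h2
    have h5 : 0 < I * δ := by positivity
    nlinarith
  have hI0 : ∫ x, G x ∂σ.base = 0 := le_antisymm hI (integral_nonneg_of_ae hGnn)
  have hz := (integral_eq_zero_iff_of_nonneg_ae hGnn hGint).1 hI0
  filter_upwards [hz] with x hx h1 h2
  simp only [hG, Pi.zero_apply] at hx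
  rw [indicator_of_mem (show x ∈ {x : E 2 | x 1 < ξ - δ} from h2)] at hx
  rcases mul_eq_zero.1 hx with h3 | h3
  · exact absurd h3 (hep _ h1).ne'
  · exact h3

/-- No `α`-mass in the open quadrant above a contact point. -/
lemma Good.quad {σ : TensorMeasure 2} (h : Good σ) (k : ℕ) :
    ∀ᵐ x ∂σ.base, (1 / 2 : ℝ) ^ k < x 0 → x 1 < (1 / 2 : ℝ) ^ k → σ.dens x 0 0 = 0 := by
  have hξ : (0 : ℝ) < (1 / 2) ^ k := by positivity
  have hξ1 : ((1 / 2 : ℝ)) ^ k ≤ 1 := pow_le_one₀ (by norm_num) (by norm_num)
  have hall : ∀ n : ℕ, ∀ᵐ x ∂σ.base, (1 / 2 : ℝ) ^ k < x 0 →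
      x 1 < (1 / 2 : ℝ) ^ k - 1 / ((n : ℝ) + 1) → σ.dens x 0 0 = 0 := fun n =>
    h.quad_aux hξ hξ1 (pow_mem_KK k) (by positivity)
  rw [← ae_all_iff] at hall
  filter_upwards [hall] with x hx h1 h2
  obtain ⟨n, hn⟩ := exists_nat_one_div_lt (show 0 < (1 / 2 : ℝ) ^ k - x 1 by linarith)
  exact hx n h1 (by linarith)

end Pool.Agent.Lib.MP_5ff43f_an
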