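import Pool.Agent.Lib.MP_5ff43f_an.Cell

open MeasureTheory Set Filter
open scoped RealInnerProductSpace ENNReal NNReal Topology ContDiff

namespace Pool.Agent.Lib.MP_5ff43f_an

/-- integral over a segment by arclength parametrisation -/
lemma segment_integral {d : ℕ} {z x : E d} (hzx : z ≠ x) (F : E d → ℝ) :
    ∫ ξ in segment ℝ z x, F ξ ∂μH[1] =
      ∫ r in (0 : ℝ)..‖x - z‖, F (z + r • dir z x) := by
  have hL : 0 < ‖x - z‖ := norm_pos_iff.2 (sub_ne_zero.2 hzx.symm)
  have he : ‖dir z x‖ = 1 := by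
    unfold dir
    rw [norm_smul, norm_inv, norm_norm]
    exact inv_mul_cancel₀ hL.ne'
  have hLe : ‖x - z‖ • dir z x = x - z := by
    unfold dir
    rw [smul_smul, mul_inv_cancel₀ hL.ne', one_smul]
  let γ : ℝ → E d := fun r => z + r • dir z x
  have hγ : Isometry γ := by
    apply Isometry.of_dist_eq
    intro a b
    simp only [γ, dist_eq_norm]
    have : z + a • dir z x - (z + b • dir z x) = (a - b) • dir z x := by
      rw [sub_smul]; abel
    rw [this, norm_smul, he, mul_one]
  have hemb : MeasurableEmbedding γ := hγ.isClosedEmbedding.measurableEmbedding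
  have hseg : segment ℝ z x = γ '' Icc 0 ‖x - z‖ := by
    rw [segment_eq_image']
    ext y
    constructor
    · rintro ⟨θ, hθ, rfl⟩
      refine ⟨θ * ‖x - z‖, ⟨by have := hθ.1; positivity, ?_⟩, ?_⟩
      · have := hθ.2; nlinarith
      · simp only [γ, mul_smul, hLe]
    · rintro ⟨r, hr, rfl⟩
      refine ⟨r / ‖x - z‖, ⟨by have := hr.1; positivity, (div_le_one hL).2 hr.2⟩, ?_⟩
      simp only [γ]
      have h9 : (r / ‖x - z‖) • (x - z) = r • dir z x := by
        conv_lhs => rw [← hLe]
        rw [smul_smul, norm_smul, he, mul_one, norm_norm, div_mul_cancel₀ _ hL.ne']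
      rw [h9]
  have hpre : γ ⁻¹' (segment ℝ z x) = Icc 0 ‖x - z‖ := by
    rw [hseg]; exact hγ.injective.preimage_image _
  have hrange : segment ℝ z x ⊆ range γ := by
    rw [hseg]; exact image_subset_range _ _
  have hmseg : MeasurableSet (segment ℝ z x) := by
    rw [hseg]; exact hemb.measurableSet_image.2 measurableSet_Icc
  have hmap := hγ.map_hausdorffMeasure (d := 1) (Or.inl (by norm_num))
  rw [hausdorffMeasure_real] at hmap
  have h1 : (μH[1] : Measure (E d)).restrict (segment ℝ z x) =
      (Measure.map γ volume).restrict (segment ℝ z x) := by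
    rw [hmap, Measure.restrict_restrict hmseg, inter_eq_left.2 hrange]
  rw [h1, hemb.setIntegral_map, hpre, integral_Icc_eq_integral_Ioc,
    intervalIntegral.integral_of_le hL.le]

/-- the symmetrised gradient of the field `X e₀` -/
noncomputable def psiX (X : E 2 → ℝ) (x : E 2) : Matrix (Fin 2) (Fin 2) ℝ :=
  !![fderiv ℝ X x (EuclideanSpace.single 0 1), fderiv ℝ X x (EuclideanSpace.single 1 1) / 2;
    fderiv ℝ X x (EuclideanSpace.single 1 1) / 2, 0]

lemma psiX_quad (X : E 2 → ℝ) (ξ v : E 2) :
    ∑ i, ∑ j, psiX X ξ i j * (v i * v j) = v 0 * fderiv ℝ X ξ v := by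
  have hv : v = v 0 • EuclideanSpace.single 0 (1 : ℝ) + v 1 • EuclideanSpace.single 1 (1 : ℝ) := by
    ext i; fin_cases i <;> simp
  have h1 : fderiv ℝ X ξ v = v 0 * fderiv ℝ X ξ (EuclideanSpace.single 0 1) +
      v 1 * fderiv ℝ X ξ (EuclideanSpace.single 1 1) := by
    conv_lhs => rw [hv]
    rw [map_add, map_smul, map_smul, smul_eq_mul, smul_eq_mul]
  rw [h1]
  simp [psiX, Fin.sum_univ_two]
  ring

lemma segPair_bound {X : E 2 → ℝ} (hX : ContDiff ℝ 1 X) {M : ℝ} (hM : ∀ x, |X x| ≤ M)
    (z x : E 2) : |segPair z x (psiX X)| ≤ 2 * ‖x - z‖ * M := by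
  have hM0 : 0 ≤ M := (abs_nonneg _).trans (hM 0)
  by_cases hzx : z = x
  · subst hzx
    have : segPair z z (psiX X) = 0 := by
      unfold segPair
      simp [dir]
    rw [this]; simp
  have hL : 0 < ‖x - z‖ := norm_pos_iff.2 (sub_ne_zero.2 (Ne.symm hzx))
  have he : ‖dir z x‖ = 1 := by
    unfold dir
    rw [norm_smul, norm_inv, norm_norm]
    exact inv_mul_cancel₀ hL.ne'
  set e := dir z x with hedef
  set L := ‖x - z‖ with hLdef
  have h1 : segPair z x (psiX X) =
      ∫ r in (0 : ℝ)..L, e 0 * (r * fderiv ℝ X (z + r • e) e) := by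
    unfold segPair
    rw [segment_integral hzx]
    apply intervalIntegral.integral_congr
    intro r hr
    rw [uIcc_of_le hL.le] at hr
    have h2 : ‖z + r • e - z‖ = r := by
      rw [add_sub_cancel_left, norm_smul, he, mul_one, Real.norm_of_nonneg hr.1]
    simp only [← hedef]
    rw [psiX_quad, h2]
    ring
  have hd : Differentiable ℝ X := hX.differentiable (by norm_num)
  have hγ : ∀ r : ℝ, HasDerivAt (fun r : ℝ => z + r • e) e r := by
    intro r
    have := ((hasDerivAt_id r).smul_const e).const_add z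
    simpa using this
  have hXγ : ∀ r : ℝ, HasDerivAt (fun r : ℝ => X (z + r • e)) (fderiv ℝ X (z + r • e) e) r :=
    fun r => (hd _).hasFDerivAt.comp_hasDerivAt r (hγ r)
  have hcγ : Continuous fun r : ℝ => z + r • e := by fun_prop
  have hc' : Continuous fun r : ℝ => fderiv ℝ X (z + r • e) e :=
    ((hX.continuous_fderiv (by norm_num)).comp hcγ).clm_apply continuous_const
  have hparts : ∫ r in (0 : ℝ)..L, r * fderiv ℝ X (z + r • e) e =
      L * X (z + L • e) - ∫ r in (0 : ℝ)..L, X (z + r • e) := by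
    have := intervalIntegral.integral_mul_deriv_eq_deriv_mul (a := 0) (b := L)
      (u := fun r : ℝ => r) (v := fun r : ℝ => X (z + r • e)) (u' := fun _ => 1)
      (v' := fun r : ℝ => fderiv ℝ X (z + r • e) e)
      (fun r _ => hasDerivAt_id r) (fun r _ => hXγ r)
      (continuous_const.intervalIntegrable _ _) (hc'.intervalIntegrable _ _)
    rw [this]; simp
  rw [h1, intervalIntegral.integral_const_mul, hparts, abs_mul]
  have he0 : |e 0| ≤ 1 := by rw [← he]; exact abs_coord_le e 0
  have hA : |L * X (z + L • e)| ≤ L * M := by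
    rw [abs_mul, abs_of_nonneg hL.le]
    exact mul_le_mul_of_nonneg_left (hM _) hL.le
  have hB : |∫ r in (0 : ℝ)..L, X (z + r • e)| ≤ L * M := by
    have := intervalIntegral.norm_integral_le_of_norm_le_const (a := 0) (b := L) (C := M)
      (f := fun r => X (z + r • e)) (fun r _ => hM _)
    rw [Real.norm_eq_abs, sub_zero, abs_of_nonneg hL.le] at this
    linarith
  calc |e 0| * |L * X (z + L • e) - ∫ r in (0 : ℝ)..L, X (z + r • e)|
      ≤ 1 * (L * M + L * M) := by
        apply mul_le_mul he0 _ (abs_nonneg _) (by norm_num)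
        exact (abs_sub _ _).trans (add_le_add hA hB)
    _ = 2 * L * M := by ring

lemma closure_norm {x : E 2} (hx : x ∈ closure Om) : ‖x‖ ≤ 6 := by
  have h := closure_Om_sub hx
  have h2 := norm_sq_E2 x
  have h3 := abs_le.1 h.2.1
  have h4 := abs_le.1 h.2.2
  have : ‖x‖ ^ 2 ≤ 6 ^ 2 := by nlinarith
  exact le_of_sq_le_sq this (by norm_num)

lemma psiX_cont {X : E 2 → ℝ} (hX : ContDiff ℝ 1 X) : Continuous (psiX X) := by
  have h0 : Continuous fun x => fderiv ℝ X x (EuclideanSpace.single 0 1) :=
    (hX.continuous_fderiv (by norm_num)).clm_apply continuous_const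
  have h1 : Continuous fun x => fderiv ℝ X x (EuclideanSpace.single 1 1) :=
    (hX.continuous_fderiv (by norm_num)).clm_apply continuous_const
  apply continuous_matrix
  intro i j
  fin_cases i <;> fin_cases j
  · exact h0
  · exact h1.div_const 2
  · exact h1.div_const 2
  · exact continuous_const

lemma psiX_zero {X : E 2 → ℝ} {x : E 2} (hx : x ∉ tsupport X) : psiX X x = 0 := by
  have : fderiv ℝ X x = 0 := by
    have h : X =ᶠ[𝓝 x] fun _ => 0 := by
      have := notMem_tsupport_iff_eventuallyEq.1 hx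
      exact this
    rw [h.fderiv_eq]; simp
  unfold psiX
  rw [this]
  ext i j
  fin_cases i <;> fin_cases j <;> simp

/-- The key estimate for tensors of the form `σ_π + σ_∂Ω`. -/
lemma form_bound {σ : TensorMeasure 2} (h : Good σ) (hf : HasForm Om σ) :
    ∃ C : ℝ, ∀ X : E 2 → ℝ, ContDiff ℝ 1 X → HasCompactSupport X → tsupport X ⊆ Om →
      (∀ x, |X x| ≤ 2) →
      ∫ x, fderiv ℝ X x (EuclideanSpace.single 0 1) * σ.dens x 0 0 ∂σ.base ≤ C := by
  obtain ⟨π, hπ, hπs, σb, hσb, hrep⟩ := hf
  refine ⟨96 * π.real univ, ?_⟩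
  intro X hX hXc hXs hXb
  have hpc : HasCompactSupport (psiX X) := by
    apply HasCompactSupport.of_support_subset_isCompact hXc
    intro x hx
    by_contra hn
    exact hx (psiX_zero hn)
  have hsym : ∀ x, (psiX X x).IsSymm := by
    intro x
    ext i j
    fin_cases i <;> fin_cases j <;> simp [psiX, Matrix.transpose_apply]
  have h1 := hrep (psiX X) (psiX_cont hX) hpc hsym
  have h2 : σ.pair (psiX X) =
      ∫ x, fderiv ℝ X x (EuclideanSpace.single 0 1) * σ.dens x 0 0 ∂σ.base := by
    unfold TensorMeasure.pair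
    apply integral_congr_ae
    filter_upwards [h.al] with x hx
    have h10 : σ.dens x 1 0 = σ.dens x 0 1 := by
      have := (σ.symm x).apply 0 1
      simpa using this
    simp only [Fin.sum_univ_two, h10, hx.1]
    simp [psiX]
  have h3 : σb.pair (psiX X) = 0 := by
    unfold TensorMeasure.pair
    rw [← integral_zero (E 2) ℝ (μ := σb.base)]
    apply integral_congr_ae
    filter_upwards [hσb] with x hx
    by_cases hxf : x ∈ frontier Om
    · have : x ∉ tsupport X := by
        intro hxt
        have := hXs hxt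
        rw [isOpen_Om.frontier_eq] at hxf
        exact hxf.2 this
      rw [psiX_zero this]; simp
    · rw [hx hxf]; simp
  rw [← h2, h1, h3, add_zero]
  have hae : ∀ᵐ p ∂π, p ∈ (closure Om ×ˢ closure Om ×ˢ closure Om) := by
    rw [ae_iff]; exact hπs
  have h4 : ‖∫ p, threePair p.1 p.2.1 p.2.2 (psiX X) ∂π‖ ≤ 96 * π.real univ := by
    apply norm_integral_le_of_norm_le_const
    filter_upwards [hae] with p hp
    obtain ⟨p1, p2, p3⟩ := hp
    have n1 := closure_norm p1
    have n2 := closure_norm p2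
    have n3 := closure_norm p3
    have b1 := segPair_bound hX hXb p.2.2 p.1
    have b2 := segPair_bound hX hXb p.2.2 p.2.1
    have t1 : ‖p.1 - p.2.2‖ ≤ 12 := (norm_sub_le _ _).trans (by linarith)
    have t2 : ‖p.2.1 - p.2.2‖ ≤ 12 := (norm_sub_le _ _).trans (by linarith)
    rw [Real.norm_eq_abs]
    unfold threePair
    have := abs_sub (segPair p.2.2 p.1 (psiX X)) (segPair p.2.2 p.2.1 (psiX X))
    linarith
  exact (le_abs_self _).trans h4

end Pool.Agent.Lib.MP_5ff43f_an
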