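import Pool.Agent.Lib.MP_5ff43f_an.Fin

open MeasureTheory Set Filter
open scoped RealInnerProductSpace ENNReal NNReal Topology ContDiff

namespace Pool.Agent.Lib.MP_5ff43f_an

/-- weight function of the `s`-rods and the diagonal -/
noncomputable def aa (s t : ℝ) : ℝ :=
  if s = t ∧ 0 < s ∧ s < 1 then 1
  else if t = 0 ∧ -1 < s ∧ s < 0 then s + 1
  else if t = 1 ∧ 1 < s ∧ s < 2 then 2 - s
  else 0

lemma aa_nonneg (s t : ℝ) : 0 ≤ aa s t := by
  unfold aa
  split_ifs with h1 h2 h3
  · norm_num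
  · linarith [h2.2.1]
  · linarith [h3.2.2]
  · exact le_refl _

lemma aa_le_one (s t : ℝ) : aa s t ≤ 1 := by
  unfold aa
  split_ifs with h1 h2 h3
  · norm_num
  · linarith [h2.2.2]
  · linarith [h3.2.1]
  · norm_num

lemma aa_meas : Measurable fun p : ℝ × ℝ => aa p.1 p.2 := by
  unfold aa
  have m1 : MeasurableSet {p : ℝ × ℝ | p.1 = p.2 ∧ 0 < p.1 ∧ p.1 < 1} :=
    (measurableSet_eq_fun measurable_fst measurable_snd).inter
      ((measurableSet_lt measurable_const measurable_fst).inter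
        (measurableSet_lt measurable_fst measurable_const))
  have m2 : MeasurableSet {p : ℝ × ℝ | p.2 = 0 ∧ -1 < p.1 ∧ p.1 < 0} :=
    (measurableSet_eq_fun measurable_snd measurable_const).inter
      ((measurableSet_lt measurable_const measurable_fst).inter
        (measurableSet_lt measurable_fst measurable_const))
  have m3 : MeasurableSet {p : ℝ × ℝ | p.2 = 1 ∧ 1 < p.1 ∧ p.1 < 2} :=
    (measurableSet_eq_fun measurable_snd measurable_const).inter
      ((measurableSet_lt measurable_const measurable_fst).inter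
        (measurableSet_lt measurable_fst measurable_const))
  exact Measurable.ite m1 measurable_const (Measurable.ite m2 (measurable_fst.add measurable_const)
    (Measurable.ite m3 (measurable_const.sub measurable_fst) measurable_const))

lemma aa_meas' : Measurable fun x : E 2 => aa (x 0) (x 1) :=
  aa_meas.comp ((coord_cont 0).measurable.prodMk (coord_cont 1).measurable)

lemma aa_meas'' : Measurable fun x : E 2 => aa (x 1) (x 0) :=
  aa_meas.comp ((coord_cont 1).measurable.prodMk (coord_cont 0).measurable)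

/-- the five curves -/
noncomputable def g1 (r : ℝ) : E 2 := !₂[r - 1, 0]
noncomputable def g2 (r : ℝ) : E 2 := !₂[0, r - 1]
noncomputable def g3 (r : ℝ) : E 2 := !₂[r, r]
noncomputable def g4 (r : ℝ) : E 2 := !₂[1 + r, 1]
noncomputable def g5 (r : ℝ) : E 2 := !₂[1, 1 + r]

lemma g1c : Continuous g1 := by unfold g1; fun_prop
lemma g2c : Continuous g2 := by unfold g2; fun_prop
lemma g3c : Continuous g3 := by unfold g3; fun_prop
lemma g4c : Continuous g4 := by unfold g4; fun_prop
lemma g5c : Continuous g5 := by unfold g5; fun_prop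

/-- Lebesgue measure on the unit interval -/
noncomputable def m01 : Measure ℝ := volume.restrict (Ioo 0 1)

instance : IsFiniteMeasure m01 := by unfold m01; infer_instance

/-- the base measure of the explicit solution -/
noncomputable def mu0 : Measure (E 2) :=
  m01.map g1 + m01.map g2 + m01.map g3 + m01.map g4 + m01.map g5

instance : IsFiniteMeasure mu0 := by
  unfold mu0
  infer_instance

/-- the density of the explicit solution -/
noncomputable def dens0 (x : E 2) : Matrix (Fin 2) (Fin 2) ℝ :=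
  !![aa (x 0) (x 1), 0; 0, -aa (x 1) (x 0)]

lemma dens0_meas (i j : Fin 2) : Measurable fun x => dens0 x i j := by
  fin_cases i <;> fin_cases j
  · exact aa_meas'
  · exact measurable_const
  · exact measurable_const
  · exact aa_meas''.neg

lemma dens0_bound (i j : Fin 2) (x : E 2) : |dens0 x i j| ≤ 1 := by
  have h1 := aa_nonneg (x 0) (x 1)
  have h2 := aa_le_one (x 0) (x 1)
  have h3 := aa_nonneg (x 1) (x 0)
  have h4 := aa_le_one (x 1) (x 0)
  fin_cases i <;> fin_cases j
  · change |aa (x 0) (x 1)| ≤ 1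
    rw [abs_of_nonneg h1]; exact h2
  · change |(0 : ℝ)| ≤ 1
    simp
  · change |(0 : ℝ)| ≤ 1
    simp
  · change |-aa (x 1) (x 0)| ≤ 1
    rw [abs_neg, abs_of_nonneg h3]; exact h4

/-- the explicit solution -/
noncomputable def sol : TensorMeasure 2 where
  base := mu0
  finite := inferInstance
  dens := dens0
  symm := by
    intro x
    ext i j
    fin_cases i <;> fin_cases j <;> simp [dens0, Matrix.conjTranspose_apply]
  meas := dens0_meas
  integrable := by
    intro i j
    apply Integrable.of_bound (dens0_meas i j).aestronglyMeasurable 1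
    filter_upwards with x
    exact dens0_bound i j x

/-- integrals against the base measure -/
lemma integral_mu0 {F : E 2 → ℝ} (hF : Measurable F) {C : ℝ} (hb : ∀ x, |F x| ≤ C) :
    ∫ x, F x ∂mu0 = (∫ r in (0 : ℝ)..1, F (g1 r)) + (∫ r in (0 : ℝ)..1, F (g2 r)) +
      (∫ r in (0 : ℝ)..1, F (g3 r)) + (∫ r in (0 : ℝ)..1, F (g4 r)) +
      (∫ r in (0 : ℝ)..1, F (g5 r)) := by
  have hint : ∀ ν : Measure (E 2), IsFiniteMeasure ν → Integrable F ν := by
    intro ν hν
    apply Integrable.of_bound hF.aestronglyMeasurable C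
    filter_upwards with x
    exact hb x
  have hm : ∀ g : ℝ → E 2, Continuous g → ∫ x, F x ∂(m01.map g) = ∫ r in (0 : ℝ)..1, F (g r) := by
    intro g hg
    rw [integral_map hg.measurable.aemeasurable hF.aestronglyMeasurable]
    unfold m01
    rw [← integral_Ioc_eq_integral_Ioo, intervalIntegral.integral_of_le (by norm_num)]
  unfold mu0
  rw [integral_add_measure (hint _ inferInstance) (hint _ inferInstance),
    integral_add_measure (hint _ inferInstance) (hint _ inferInstance),
    integral_add_measure (hint _ inferInstance) (hint _ inferInstance),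
    integral_add_measure (hint _ inferInstance) (hint _ inferInstance),
    hm _ g1c, hm _ g2c, hm _ g3c, hm _ g4c, hm _ g5c]

lemma ae_mu0 {p : E 2 → Prop} (hp : MeasurableSet {x | p x})
    (h1 : ∀ r ∈ Ioo (0 : ℝ) 1, p (g1 r)) (h2 : ∀ r ∈ Ioo (0 : ℝ) 1, p (g2 r))
    (h3 : ∀ r ∈ Ioo (0 : ℝ) 1, p (g3 r)) (h4 : ∀ r ∈ Ioo (0 : ℝ) 1, p (g4 r))
    (h5 : ∀ r ∈ Ioo (0 : ℝ) 1, p (g5 r)) : ∀ᵐ x ∂mu0, p x := by
  have hm : ∀ g : ℝ → E 2, Continuous g → (∀ r ∈ Ioo (0 : ℝ) 1, p (g r)) →
      ∀ᵐ x ∂(m01.map g), p x := by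
    intro g hg h
    rw [ae_map_iff hg.measurable.aemeasurable hp]
    unfold m01
    exact (ae_restrict_iff' measurableSet_Ioo).2 (ae_of_all _ h)
  unfold mu0
  simp only [ae_add_measure_iff]
  exact ⟨⟨⟨⟨hm _ g1c h1, hm _ g2c h2⟩, hm _ g3c h3⟩, hm _ g4c h4⟩, hm _ g5c h5⟩

lemma sol_conc : sol.ConcentratedOn (closure Om) := by
  have h : ∀ᵐ x ∂mu0, x ∈ closure Om := by
    apply ae_mu0 isClosed_closure.measurableSet
    · intro r hr
      apply mem_closure_of_weak
      · left; simp [g1]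
      · simp only [g1]; simp
        rw [abs_le]; constructor <;> linarith [hr.1, hr.2]
      · simp [g1]
    · intro r hr
      apply mem_closure_of_weak
      · left; simp [g2]; linarith [hr.2]
      · simp [g2]
      · simp only [g2]; simp
        rw [abs_le]; constructor <;> linarith [hr.1, hr.2]
    · intro r hr
      apply mem_closure_of_weak
      · right; simp [g3]; exact gg_le_self r
      · simp only [g3]; simp
        rw [abs_le]; constructor <;> linarith [hr.1, hr.2]
      · simp only [g3]; simp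
        rw [abs_le]; constructor <;> linarith [hr.1, hr.2]
    · intro r hr
      apply mem_closure_of_weak
      · right; simp [g4, gg_one]; linarith [hr.1]
      · simp only [g4]; simp
        rw [abs_le]; constructor <;> linarith [hr.1, hr.2]
      · simp [g4]
    · intro r hr
      apply mem_closure_of_weak
      · right
        have : gg (1 + r) = 1 := gg_of_one_le (by linarith [hr.1])
        simp [g5, this]
      · simp [g5]
      · simp only [g5]; simp
        rw [abs_le]; constructor <;> linarith [hr.1, hr.2]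
  unfold TensorMeasure.ConcentratedOn
  change ∀ᵐ x ∂mu0, x ∉ closure Om → dens0 x = 0
  filter_upwards [h] with x hx hn
  exact absurd hx hn

lemma aa_g1 {r : ℝ} (hr : r ∈ Ioo (0 : ℝ) 1) : aa (g1 r 0) (g1 r 1) = r ∧ aa (g1 r 1) (g1 r 0) = 0 := by
  have e0 : g1 r 0 = r - 1 := by simp [g1]
  have e1 : g1 r 1 = 0 := by simp [g1]
  rw [e0, e1]
  have a := hr.1
  have b := hr.2
  unfold aa
  constructor
  · rw [if_neg (by rintro ⟨h, h', -⟩; linarith), if_pos ⟨rfl, by linarith, by linarith⟩]; ring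
  · rw [if_neg (by rintro ⟨h, h', -⟩; linarith), if_neg (by rintro ⟨h, -⟩; linarith),
      if_neg (by rintro ⟨h, -⟩; linarith)]

lemma aa_g2 {r : ℝ} (hr : r ∈ Ioo (0 : ℝ) 1) : aa (g2 r 0) (g2 r 1) = 0 ∧ aa (g2 r 1) (g2 r 0) = r := by
  have e0 : g2 r 0 = 0 := by simp [g2]
  have e1 : g2 r 1 = r - 1 := by simp [g2]
  rw [e0, e1]
  have a := hr.1
  have b := hr.2
  unfold aa
  constructor
  · rw [if_neg (by rintro ⟨h, h', -⟩; linarith), if_neg (by rintro ⟨h, -⟩; linarith),
      if_neg (by rintro ⟨h, -⟩; linarith)]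
  · rw [if_neg (by rintro ⟨h, h', -⟩; linarith), if_pos ⟨rfl, by linarith, by linarith⟩]; ring

lemma aa_g3 {r : ℝ} (hr : r ∈ Ioo (0 : ℝ) 1) : aa (g3 r 0) (g3 r 1) = 1 ∧ aa (g3 r 1) (g3 r 0) = 1 := by
  have e0 : g3 r 0 = r := by simp [g3]
  have e1 : g3 r 1 = r := by simp [g3]
  rw [e0, e1]
  unfold aa
  rw [if_pos ⟨rfl, hr.1, hr.2⟩]
  exact ⟨rfl, rfl⟩

lemma aa_g4 {r : ℝ} (hr : r ∈ Ioo (0 : ℝ) 1) :
    aa (g4 r 0) (g4 r 1) = 1 - r ∧ aa (g4 r 1) (g4 r 0) = 0 := by
  have e0 : g4 r 0 = 1 + r := by simp [g4]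
  have e1 : g4 r 1 = 1 := by simp [g4]
  rw [e0, e1]
  have a := hr.1
  have b := hr.2
  unfold aa
  constructor
  · rw [if_neg (by rintro ⟨h, -⟩; linarith), if_neg (by rintro ⟨h, -⟩; linarith),
      if_pos ⟨rfl, by linarith, by linarith⟩]; ring
  · rw [if_neg (by rintro ⟨h, h', -⟩; linarith), if_neg (by rintro ⟨h, -⟩; linarith),
      if_neg (by rintro ⟨h, -⟩; linarith)]

lemma aa_g5 {r : ℝ} (hr : r ∈ Ioo (0 : ℝ) 1) :
    aa (g5 r 0) (g5 r 1) = 0 ∧ aa (g5 r 1) (g5 r 0) = 1 - r := by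
  have e0 : g5 r 0 = 1 := by simp [g5]
  have e1 : g5 r 1 = 1 + r := by simp [g5]
  rw [e0, e1]
  have a := hr.1
  have b := hr.2
  unfold aa
  constructor
  · rw [if_neg (by rintro ⟨h, h', -⟩; linarith), if_neg (by rintro ⟨h, -⟩; linarith),
      if_neg (by rintro ⟨h, -⟩; linarith)]
  · rw [if_neg (by rintro ⟨h, -⟩; linarith), if_neg (by rintro ⟨h, -⟩; linarith),
      if_pos ⟨rfl, by linarith, by linarith⟩]; ring

/-- The derivative of `φ` in the `j`-th coordinate direction. -/
noncomputable def pd' (φ : E 2 → ℝ) (j : Fin 2) (x : E 2) : ℝ :=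
  fderiv ℝ φ x (EuclideanSpace.single j 1)

lemma pd'_smooth {φ : E 2 → ℝ} (hφ : ContDiff ℝ ∞ φ) (j : Fin 2) : ContDiff ℝ ∞ (pd' φ j) := by
  have h := hφ.fderiv_right (m := ∞) (by simp)
  exact h.clm_apply contDiff_const

lemma hess_eq (φ : E 2 → ℝ) (x : E 2) (i j : Fin 2) :
    hess φ x i j = pd' (pd' φ j) i x := rfl

lemma hess_cont {φ : E 2 → ℝ} (hφ : ContDiff ℝ ∞ φ) (i j : Fin 2) :
    Continuous fun x => hess φ x i j := (pd'_smooth (pd'_smooth hφ j) i).continuous

lemma hess_symm {φ : E 2 → ℝ} (hφ : ContDiff ℝ ∞ φ) (x : E 2) : hess φ x 0 1 = hess φ x 1 0 := by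
  have h1 : ∀ j, ∀ y, HasFDerivAt (fun y => fderiv ℝ φ y (EuclideanSpace.single j 1))
      ((ContinuousLinearMap.apply ℝ ℝ (EuclideanSpace.single j 1 : E 2)).comp
        (fderiv ℝ (fderiv ℝ φ) y)) y := by
    intro j y
    have h2 : Differentiable ℝ (fderiv ℝ φ) :=
      (hφ.fderiv_right (m := ∞) (by simp)).differentiable (by simp)
    exact (ContinuousLinearMap.apply ℝ ℝ (EuclideanSpace.single j 1 : E 2)).hasFDerivAt.comp y
      (h2 y).hasFDerivAt
  simp only [hess, Matrix.of_apply]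
  rw [(h1 1 x).fderiv, (h1 0 x).fderiv]
  simp only [ContinuousLinearMap.comp_apply, ContinuousLinearMap.apply_apply]
  have hs : IsSymmSndFDerivAt ℝ φ x := by
    apply ContDiffAt.isSymmSndFDerivAt (n := 2) (hφ.of_le (WithTop.coe_le_coe.2 le_top)).contDiffAt
    simp
  exact hs _ _

/-- one dimensional identities -/
lemma int_r {u u' u'' : ℝ → ℝ} (h1 : ∀ r, HasDerivAt u (u' r) r) (h2 : ∀ r, HasDerivAt u' (u'' r) r)
    (hc : Continuous u'') : ∫ r in (0 : ℝ)..1, r * u'' r = u' 1 - (u 1 - u 0) := by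
  have hc' : Continuous u' := continuous_iff_continuousAt.2 fun r => (h2 r).continuousAt
  have := intervalIntegral.integral_mul_deriv_eq_deriv_mul (a := 0) (b := 1)
      (u := fun r : ℝ => r) (v := u') (u' := fun _ => 1) (v' := u'')
      (fun r _ => hasDerivAt_id r) (fun r _ => h2 r)
      (continuous_const.intervalIntegrable _ _) (hc.intervalIntegrable _ _)
  rw [this]
  have h3 := intervalIntegral.integral_eq_sub_of_hasDerivAt (a := 0) (b := 1)
    (fun r _ => h1 r) (hc'.intervalIntegrable _ _)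
  simp only [one_mul, zero_mul, sub_zero]
  rw [h3]

lemma int_1r {u u' u'' : ℝ → ℝ} (h1 : ∀ r, HasDerivAt u (u' r) r)
    (h2 : ∀ r, HasDerivAt u' (u'' r) r)
    (hc : Continuous u'') : ∫ r in (0 : ℝ)..1, (1 - r) * u'' r = - u' 0 + (u 1 - u 0) := by
  have h3 := int_r h1 h2 hc
  have h4 := intervalIntegral.integral_eq_sub_of_hasDerivAt (a := 0) (b := 1)
    (fun r _ => h2 r) (hc.intervalIntegrable _ _)
  have h5 : ∫ r in (0 : ℝ)..1, (1 - r) * u'' r =
      (∫ r in (0 : ℝ)..1, u'' r) - ∫ r in (0 : ℝ)..1, r * u'' r := by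
    have j1 : IntervalIntegrable u'' volume 0 1 := hc.intervalIntegrable _ _
    have j2 : IntervalIntegrable (fun r => r * u'' r) volume 0 1 :=
      (continuous_id.mul hc).intervalIntegrable _ _
    rw [← intervalIntegral.integral_sub j1 j2]
    congr 1; funext r; ring
  rw [h5, h3, h4]; ring

lemma hasDeriv_line {φ : E 2 → ℝ} (hφ : ContDiff ℝ ∞ φ) {g : ℝ → E 2} {v : E 2}
    (hg : ∀ r, HasDerivAt g v r) (r : ℝ) :
    HasDerivAt (fun r => φ (g r)) (fderiv ℝ φ (g r) v) r := by
  have hd : Differentiable ℝ φ := hφ.differentiable (by simp)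
  exact (hd (g r)).hasFDerivAt.comp_hasDerivAt r (hg r)

lemma line_deriv (p v : E 2) (r : ℝ) : HasDerivAt (fun r : ℝ => p + r • v) v r := by
  have := ((hasDerivAt_id r).smul_const v).const_add p
  simpa using this

lemma g1d (r : ℝ) : HasDerivAt g1 (EuclideanSpace.single 0 1) r := by
  have e : g1 = fun r : ℝ => (!₂[-1, 0] : E 2) + r • EuclideanSpace.single 0 (1 : ℝ) := by
    funext r; ext i; fin_cases i <;> simp [g1]; ring
  rw [e]; exact line_deriv _ _ _

lemma g2d (r : ℝ) : HasDerivAt g2 (EuclideanSpace.single 1 1) r := by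
  have e : g2 = fun r : ℝ => (!₂[0, -1] : E 2) + r • EuclideanSpace.single 1 (1 : ℝ) := by
    funext r; ext i; fin_cases i <;> simp [g2]; ring
  rw [e]; exact line_deriv _ _ _

lemma g3d (r : ℝ) : HasDerivAt g3 (EuclideanSpace.single 0 1 + EuclideanSpace.single 1 1) r := by
  have e : g3 = fun r : ℝ => (!₂[0, 0] : E 2) +
      r • (EuclideanSpace.single 0 (1 : ℝ) + EuclideanSpace.single 1 (1 : ℝ)) := by
    funext r; ext i; fin_cases i <;> simp [g3]
  rw [e]; exact line_deriv _ _ _

lemma g4d (r : ℝ) : HasDerivAt g4 (EuclideanSpace.single 0 1) r := by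
  have e : g4 = fun r : ℝ => (!₂[1, 1] : E 2) + r • EuclideanSpace.single 0 (1 : ℝ) := by
    funext r; ext i; fin_cases i <;> simp [g4]
  rw [e]; exact line_deriv _ _ _

lemma g5d (r : ℝ) : HasDerivAt g5 (EuclideanSpace.single 1 1) r := by
  have e : g5 = fun r : ℝ => (!₂[1, 1] : E 2) + r • EuclideanSpace.single 1 (1 : ℝ) := by
    funext r; ext i; fin_cases i <;> simp [g5]
  rw [e]; exact line_deriv _ _ _

lemma sol_adm : Admissible Om ff sol := by
  refine ⟨sol_conc, ?_⟩
  intro φ hφ hφc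
  rw [sint_ff]
  have h00 := hess_cont hφ 0 0
  have h11 := hess_cont hφ 1 1
  -- boundedness
  have hcs : HasCompactSupport (fun x => hess φ x 0 0) := by
    apply HasCompactSupport.of_support_subset_isCompact hφc
    intro x hx
    by_contra hn
    apply hx
    have h : φ =ᶠ[𝓝 x] fun _ => 0 := notMem_tsupport_iff_eventuallyEq.1 hn
    change hess φ x 0 0 = 0
    rw [hess_congr h]
    simp [hess]
  have hcs1 : HasCompactSupport (fun x => hess φ x 1 1) := by
    apply HasCompactSupport.of_support_subset_isCompact hφc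
    intro x hx
    by_contra hn
    apply hx
    have h : φ =ᶠ[𝓝 x] fun _ => 0 := notMem_tsupport_iff_eventuallyEq.1 hn
    change hess φ x 1 1 = 0
    rw [hess_congr h]
    simp [hess]
  obtain ⟨C0, hC0⟩ := hcs.exists_bound_of_continuous h00
  obtain ⟨C1, hC1⟩ := hcs1.exists_bound_of_continuous h11
  have hF : sol.pair (hess φ) = ∫ x, (hess φ x 0 0 * aa (x 0) (x 1) -
      hess φ x 1 1 * aa (x 1) (x 0)) ∂mu0 := by
    unfold TensorMeasure.pair
    change ∫ x, ∑ i, ∑ j, hess φ x i j * dens0 x i j ∂mu0 = _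
    apply integral_congr_ae
    filter_upwards with x
    simp [Fin.sum_univ_two, dens0]
    ring
  rw [hF, integral_mu0 (C := C0 + C1)]
  · have i1 : ∫ r in (0 : ℝ)..1, (hess φ (g1 r) 0 0 * aa (g1 r 0) (g1 r 1) -
        hess φ (g1 r) 1 1 * aa (g1 r 1) (g1 r 0)) =
        pd' φ 0 (g1 1) - (φ (g1 1) - φ (g1 0)) := by
      rw [← int_r (u := fun r => φ (g1 r)) (u' := fun r => pd' φ 0 (g1 r))
        (u'' := fun r => hess φ (g1 r) 0 0) (fun r => hasDeriv_line hφ g1d r)
        (fun r => hasDeriv_line (pd'_smooth hφ 0) g1d r) (h00.comp g1c)]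
      rw [intervalIntegral.integral_of_le (by norm_num), intervalIntegral.integral_of_le (by norm_num),
        integral_Ioc_eq_integral_Ioo, integral_Ioc_eq_integral_Ioo]
      apply setIntegral_congr_fun measurableSet_Ioo
      intro r hr
      simp only [(aa_g1 hr).1, (aa_g1 hr).2]; ring
    have i2 : ∫ r in (0 : ℝ)..1, (hess φ (g2 r) 0 0 * aa (g2 r 0) (g2 r 1) -
        hess φ (g2 r) 1 1 * aa (g2 r 1) (g2 r 0)) =
        -(pd' φ 1 (g2 1) - (φ (g2 1) - φ (g2 0))) := by
      rw [← int_r (u := fun r => φ (g2 r)) (u' := fun r => pd' φ 1 (g2 r))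
        (u'' := fun r => hess φ (g2 r) 1 1) (fun r => hasDeriv_line hφ g2d r)
        (fun r => hasDeriv_line (pd'_smooth hφ 1) g2d r) (h11.comp g2c)]
      rw [← intervalIntegral.integral_neg, intervalIntegral.integral_of_le (by norm_num),
        intervalIntegral.integral_of_le (by norm_num),
        integral_Ioc_eq_integral_Ioo, integral_Ioc_eq_integral_Ioo]
      apply setIntegral_congr_fun measurableSet_Ioo
      intro r hr
      simp only [(aa_g2 hr).1, (aa_g2 hr).2]; ring
    have i4 : ∫ r in (0 : ℝ)..1, (hess φ (g4 r) 0 0 * aa (g4 r 0) (g4 r 1) -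
        hess φ (g4 r) 1 1 * aa (g4 r 1) (g4 r 0)) =
        -pd' φ 0 (g4 0) + (φ (g4 1) - φ (g4 0)) := by
      rw [← int_1r (u := fun r => φ (g4 r)) (u' := fun r => pd' φ 0 (g4 r))
        (u'' := fun r => hess φ (g4 r) 0 0) (fun r => hasDeriv_line hφ g4d r)
        (fun r => hasDeriv_line (pd'_smooth hφ 0) g4d r) (h00.comp g4c)]
      rw [intervalIntegral.integral_of_le (by norm_num), intervalIntegral.integral_of_le (by norm_num),
        integral_Ioc_eq_integral_Ioo, integral_Ioc_eq_integral_Ioo]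
      apply setIntegral_congr_fun measurableSet_Ioo
      intro r hr
      simp only [(aa_g4 hr).1, (aa_g4 hr).2]; ring
    have i5 : ∫ r in (0 : ℝ)..1, (hess φ (g5 r) 0 0 * aa (g5 r 0) (g5 r 1) -
        hess φ (g5 r) 1 1 * aa (g5 r 1) (g5 r 0)) =
        -(-pd' φ 1 (g5 0) + (φ (g5 1) - φ (g5 0))) := by
      rw [← int_1r (u := fun r => φ (g5 r)) (u' := fun r => pd' φ 1 (g5 r))
        (u'' := fun r => hess φ (g5 r) 1 1) (fun r => hasDeriv_line hφ g5d r)
        (fun r => hasDeriv_line (pd'_smooth hφ 1) g5d r) (h11.comp g5c)]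
      rw [← intervalIntegral.integral_neg, intervalIntegral.integral_of_le (by norm_num),
        intervalIntegral.integral_of_le (by norm_num),
        integral_Ioc_eq_integral_Ioo, integral_Ioc_eq_integral_Ioo]
      apply setIntegral_congr_fun measurableSet_Ioo
      intro r hr
      simp only [(aa_g5 hr).1, (aa_g5 hr).2]; ring
    have i3 : ∫ r in (0 : ℝ)..1, (hess φ (g3 r) 0 0 * aa (g3 r 0) (g3 r 1) -
        hess φ (g3 r) 1 1 * aa (g3 r 1) (g3 r 0)) =
        (pd' φ 0 (g3 1) - pd' φ 1 (g3 1)) - (pd' φ 0 (g3 0) - pd' φ 1 (g3 0)) := by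
      have hd : ∀ r, HasDerivAt (fun r => pd' φ 0 (g3 r) - pd' φ 1 (g3 r))
          (hess φ (g3 r) 0 0 - hess φ (g3 r) 1 1) r := by
        intro r
        have a := hasDeriv_line (pd'_smooth hφ 0) g3d r
        have b := hasDeriv_line (pd'_smooth hφ 1) g3d r
        have c := a.sub b
        have e : fderiv ℝ (pd' φ 0) (g3 r) (EuclideanSpace.single 0 1 + EuclideanSpace.single 1 1) -
            fderiv ℝ (pd' φ 1) (g3 r) (EuclideanSpace.single 0 1 + EuclideanSpace.single 1 1) =
            hess φ (g3 r) 0 0 - hess φ (g3 r) 1 1 := by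
          rw [map_add, map_add]
          change hess φ (g3 r) 0 0 + hess φ (g3 r) 1 0 - (hess φ (g3 r) 0 1 + hess φ (g3 r) 1 1) = _
          rw [hess_symm hφ]; ring
        rw [e] at c
        exact c
      have h := intervalIntegral.integral_eq_sub_of_hasDerivAt (a := 0) (b := 1)
        (fun r _ => hd r) (((h00.comp g3c).sub (h11.comp g3c)).intervalIntegrable _ _)
      rw [← h]
      rw [intervalIntegral.integral_of_le (by norm_num), intervalIntegral.integral_of_le (by norm_num),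
        integral_Ioc_eq_integral_Ioo, integral_Ioc_eq_integral_Ioo]
      apply setIntegral_congr_fun measurableSet_Ioo
      intro r hr
      simp only [(aa_g3 hr).1, (aa_g3 hr).2]; ring
    rw [i1, i2, i3, i4, i5]
    have p1 : g1 1 = !₂[0, 0] := by simp [g1]
    have p2 : g1 0 = pa := by simp [g1, pa]
    have p3 : g2 1 = !₂[0, 0] := by simp [g2]
    have p4 : g2 0 = pb := by simp [g2, pb]
    have p5 : g3 0 = !₂[0, 0] := by simp [g3]
    have p6 : g3 1 = !₂[1, 1] := by simp [g3]
    have p7 : g4 0 = !₂[1, 1] := by simp [g4]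
    have p8 : g4 1 = pc := by simp [g4, pc]; norm_num
    have p9 : g5 0 = !₂[1, 1] := by simp [g5]
    have p10 : g5 1 = pd := by simp [g5, pd]; norm_num
    rw [p1, p2, p3, p4, p5, p6, p7, p8, p9, p10]
    ring
  · exact (h00.measurable.mul aa_meas').sub (h11.measurable.mul aa_meas'')
  · intro x
    have a1 := aa_nonneg (x 0) (x 1)
    have a2 := aa_le_one (x 0) (x 1)
    have a3 := aa_nonneg (x 1) (x 0)
    have a4 := aa_le_one (x 1) (x 0)
    have b0 := hC0 x
    have b1 := hC1 x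
    rw [Real.norm_eq_abs] at b0 b1
    calc |hess φ x 0 0 * aa (x 0) (x 1) - hess φ x 1 1 * aa (x 1) (x 0)|
        ≤ |hess φ x 0 0 * aa (x 0) (x 1)| + |hess φ x 1 1 * aa (x 1) (x 0)| := abs_sub _ _
      _ = |hess φ x 0 0| * aa (x 0) (x 1) + |hess φ x 1 1| * aa (x 1) (x 0) := by
        rw [abs_mul, abs_mul, abs_of_nonneg a1, abs_of_nonneg a3]
      _ ≤ C0 * 1 + C1 * 1 := by
        apply add_le_add
        · exact mul_le_mul b0 a2 a1 ((abs_nonneg _).trans b0)
        · exact mul_le_mul b1 a4 a3 ((abs_nonneg _).trans b1)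
      _ = C0 + C1 := by ring

lemma sol_nuclear (x : E 2) : sol.nuclear x = sol.dens x 0 0 - sol.dens x 1 1 := by
  have h0 : 0 ≤ sol.nuclear x := nuc_nonneg (sol.symm x)
  have h1 : sol.nuclear x ^ 2 = _ := nuc_sq (sol.symm x)
  have e0 : sol.dens x 0 0 = aa (x 0) (x 1) := rfl
  have e1 : sol.dens x 1 1 = -aa (x 1) (x 0) := rfl
  have e2 : sol.dens x 0 1 = 0 := rfl
  rw [e0, e1, e2] at h1
  rw [e0, e1]
  have a1 := aa_nonneg (x 0) (x 1)
  have a3 := aa_nonneg (x 1) (x 0)
  have h2 : |aa (x 0) (x 1) * -aa (x 1) (x 0) - 0 ^ 2| = aa (x 0) (x 1) * aa (x 1) (x 0) := by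
    rw [show aa (x 0) (x 1) * -aa (x 1) (x 0) - 0 ^ 2 = -(aa (x 0) (x 1) * aa (x 1) (x 0)) by ring,
      abs_neg, abs_of_nonneg (mul_nonneg a1 a3)]
  rw [h2] at h1
  have h3 : sol.nuclear x ^ 2 = (aa (x 0) (x 1) + aa (x 1) (x 0)) ^ 2 := by
    rw [h1]; ring
  have h4 := (sq_eq_sq₀ h0 (add_nonneg a1 a3)).1 h3
  rw [h4]; ring

lemma sol_cost : sol.cost = 4 := by
  rw [cost_eq]
  have : ∫ x, sol.nuclear x ∂sol.base = 4 := by
    rw [← sol_adm.trace_id]
    apply integral_congr_ae
    filter_upwards with x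
    exact sol_nuclear x
  rw [this]; simp

lemma sol_isSolution : IsSolution Om ff sol := by
  refine ⟨sol_adm, ?_⟩
  intro σ' h'
  rw [sol_cost]
  exact h'.four_le

lemma solution_good {σ : TensorMeasure 2} (h : IsSolution Om ff σ) : Good σ := by
  refine ⟨h.1, h.1.aligned ?_⟩
  rw [← sol_cost]
  exact h.2 sol sol_adm

end Pool.Agent.Lib.MP_5ff43f_an
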